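import Pool.Agent.Helper36.DV.Ff
import Pool.Agent.Helper86.LG.Lg4
import Pool.Agent.Helper97.DV.Tk

/-!
# Project DV (MP_973bc8_pr), block FLATC: final form, from LOOP alone
-/

open Finset RP4 DV LG

namespace FC

variable {c : ℝ} {K n0 : ℤ}

/-- the logarithmic bound, from LOOP -/
theorem exists_lgs (hLP : LP c K n0) (hc : 0 < c) : ∃ C : ℝ, 0 ≤ C ∧ Lgs C := by
  obtain ⟨M, hM1, hM⟩ := exists_Bq (LP.mono hLP (min_le_left c 2)) (lt_min hc two_pos)
    (min_le_right c 2)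
  obtain ⟨C, hC, h⟩ := LGS hM1 hM
  refine ⟨C, hC, fun n hn j x y _ hy D hD _ _ hv => ?_⟩
  have h0 : (1 : ℤ) ≤ 2 ^ j := one_le_pow₀ (by norm_num)
  have h1 := h D hD.wc x y n (n * 2 ^ j) hn (by nlinarith) hy hv
  have hn0 : (0 : ℝ) < n := by exact_mod_cast hn
  have h2 : ((n * 2 ^ j : ℤ) : ℝ) / n = 2 ^ j := by
    push_cast
    field_simp
  rw [h2, Real.log_pow] at h1
  have h3 : (j : ℝ) * Real.log 2 ≤ j := by
    have h4 : Real.log 2 ≤ 1 := by
      have := Real.log_two_lt_d9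
      linarith
    have h5 : (0 : ℝ) ≤ j := Nat.cast_nonneg j
    nlinarith
  refine h1.trans (mul_le_mul_of_nonneg_left (by linarith) hC)

/-- FLATC in finite domains, from LOOP -/
theorem flatc (hLP : LP c K n0) (hc : 0 < c) {ε : ℝ} (hε : 0 < ε) :
    ∃ L : ℤ, 1 ≤ L ∧ ∀ n : ℤ, 1 ≤ n → ∀ (x : V) (D : Finset V), SC D →
      Sq x (L * n) ⊆ (D : Set V) → pr (Om D) (NoB x n (L * n)) ≤ ε := by
  obtain ⟨C, hC0, hC⟩ := exists_lgs hLP hc
  exact flatc_of hLP hc hC0 hC hε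

/-- the input `FlatC` of the barrier block, from LOOP -/
theorem flatC_of_LP (hd : Deloc) (hLP : LP c K n0) (hc : 0 < c) : DV.FlatC := by
  obtain ⟨C, hC0, hC⟩ := exists_lgs hLP hc
  exact flatC hd hLP hc hC0 hC

end FC
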