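import Pool.Agent.Helper86.LG.Mk3
import Pool.Agent.Helper97.DV.Gc

/-!
# Project DV (MP_973bc8_pr), block FLATC: definitions and the deterministic part of the core estimate

`Blk x n N k h`: no nn path of sites with `h ≠ k` from `Sq x n` to the outside of `Sq x N`.
`Crs x n N k h`: an nn path of sites with `|h - k| ≤ 1` from `Sq x n` to the outside of `Sq x N`.
-/

open Finset RP4 DV LG

namespace FC

variable {D E : Finset V} {h g : V → ℤ} {x : V} {n N a k l s : ℤ}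

/-- no nn path of sites with `h ≠ k` from `Sq x n` to the outside of `Sq x N` -/
def Blk (x : V) (n N k : ℤ) (h : V → ℤ) : Prop :=
  ¬ ∃ u ∈ Sq x n, ∃ v, v ∉ Sq x N ∧ Con {w | h w ≠ k} u v

/-- an nn path of sites with `|h - k| ≤ 1` from `Sq x n` to the outside of `Sq x N` -/
def Crs (x : V) (n N k : ℤ) (h : V → ℤ) : Prop :=
  ∃ u ∈ Sq x n, ∃ v, v ∉ Sq x N ∧ Con {w | |h w - k| ≤ 1} u v

/-- no even level is blocked -/
def NoB (x : V) (n N : ℤ) (h : V → ℤ) : Prop := ∀ k, Even k → ¬ Blk x n N k h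

/-- the bad event of the core estimate -/
def Wl (x : V) (n N a l : ℤ) (h : V → ℤ) : Prop :=
  NoB x n N h ∧ ∀ k, Even k → |k + l| ≤ a → ¬ Crs x n N k h

/-- a path stays in `A` or has a first exit -/
lemma exit' {r : V → V → Prop} {S A : Set V} {u v : V} (h : Jn r S u v) (hu : u ∈ A) :
    Jn r (S ∩ A) u v ∨ ∃ a b, Jn r (S ∩ A) u a ∧ r a b ∧ a ∈ S ∧ a ∈ A ∧ b ∈ S ∧ b ∉ A := by
  obtain ⟨hu', h⟩ := h
  induction h with
  | refl => exact Or.inl (Jn.refl ⟨hu', hu⟩)
  | @tail b c hb hc ih =>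
    rcases ih with ih | ih
    · by_cases hcA : c ∈ A
      · exact Or.inl (ih.step hc.1 ⟨hc.2.2, hcA⟩)
      · exact Or.inr ⟨b, c, ih, hc.1, ih.right.1, ih.right.2, hc.2.2, hcA⟩
    · exact Or.inr ih

/-- a finite set misses a site outside the square -/
lemma exists_far (E : Finset V) (x : V) (N : ℤ) : ∃ v, v ∉ Sq x N ∧ v ∉ E := by
  classical
  obtain ⟨v, hv⟩ := Infinite.exists_notMem_finset
    (E ∪ (Finset.Icc (x.1 - N) (x.1 + N) ×ˢ Finset.Icc (x.2 - N) (x.2 + N)))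
  rw [mem_union, not_or] at hv
  refine ⟨v, fun h1 => hv.2 ?_, hv.1⟩
  rw [mem_product, mem_Icc, mem_Icc]
  obtain ⟨h2, h3⟩ := h1
  rw [abs_le] at h2 h3
  refine ⟨⟨?_, ?_⟩, ?_, ?_⟩ <;> omega

/-- from a site off `E` one reaches the outside of a square off `E` -/
lemma reach_far (hE : Cnn (E : Set V)ᶜ) {z : V} (hz : z ∉ E) (x : V) (N : ℤ) :
    ∃ v, v ∉ Sq x N ∧ Con (E : Set V)ᶜ z v := by
  obtain ⟨v, h1, h2⟩ := exists_far E x N
  exact ⟨v, h1, hE z (by simpa using hz) v (by simpa using h2)⟩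

/-- data of one exploration step: `h = s (2 + g)` on `E`, `g = 0` off `E` and on the boundary -/
structure Stp1 (E : Finset V) (s : ℤ) (h g : V → ℤ) : Prop where
  sc : SC E
  s1 : s = 1 ∨ s = -1
  inn : ∀ v ∈ E, h v = s * (2 + g v)
  off : ∀ v, v ∉ E → g v = 0
  bd : ∀ v ∈ bdry E, g v = 0
  step : ∀ v ∈ E, ∀ w, Adj v w → |h v - h w| = 1
  cnn : Cnn (E : Set V)

lemma Stp1.bdh (H : Stp1 E s h g) {v : V} (hv : v ∈ bdry E) : h v = 2 * s := by
  rw [H.inn v (bdry_subset _ hv), H.bd v hv]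
  ring

lemma mul_s_ne (hs : s = 1 ∨ s = -1) {a b : ℤ} : s * a ≠ s * b ↔ a ≠ b := by
  rcases hs with rfl | rfl <;> simp

lemma mul_s_abs (hs : s = 1 ∨ s = -1) (a b : ℤ) : |s * a - s * b| = |a - b| := by
  rcases hs with rfl | rfl
  · simp
  · rw [show -1 * a - -1 * b = -(a - b) by ring, abs_neg]

/-- blocking passes from the inner height function to the outer one -/
lemma blk_up (H : Stp1 E s h g) (hn : Sq x n ⊆ (E : Set V)) (hb : Blk x n N k g) :
    Blk x n N (s * (k + 2)) h := by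
  rintro ⟨u, hu, v, hv, huv⟩
  apply hb
  rcases exit' huv (hn hu) with h1 | ⟨p, q, h1, h2, -, h4, -, h6⟩
  · refine ⟨u, hu, v, hv, h1.mono (fun _ _ h => h) ?_⟩
    rintro w ⟨hw, hw'⟩
    rw [Set.mem_ofPred_eq, H.inn w hw', add_comm k 2, mul_s_ne H.s1] at hw
    intro h7
    exact hw (by rw [h7])
  · have hpb : p ∈ bdry E := mem_bdry.2 ⟨h4, q, adj_symm h2, h6⟩
    have h7 : Con {w | g w ≠ k} u p := h1.mono (fun _ _ h => h) (by
      rintro w ⟨hw, hw'⟩
      rw [Set.mem_ofPred_eq, H.inn w hw', add_comm k 2, mul_s_ne H.s1] at hw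
      intro h7
      exact hw (by rw [h7]))
    have hk : (0 : ℤ) ≠ k := by
      have := h7.right
      rw [Set.mem_ofPred_eq, H.bd p hpb] at this
      exact this
    obtain ⟨w, hw, hw'⟩ := reach_far H.sc.con h6 x N
    have h8 : Con {w | g w ≠ k} q w := hw'.mono (fun _ _ h => h) (fun z hz => by
      rw [Set.mem_ofPred_eq, H.off z (by simpa using hz)]
      exact hk)
    exact ⟨u, hu, w, hw, (h7.step h2 h8.left).trans h8⟩

/-- a diagonal path of boundary sites of constant height -/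
lemma xcon_con {B : Set V} {c : ℤ} (hB : ∀ v ∈ B, h v = c)
    (hst : ∀ v ∈ B, ∀ w, Adj v w → |h v - h w| = 1) {u v : V} (huv : XCon B u v) :
    Con {w | |h w - c| ≤ 1} u v := by
  refine huv.prop (P := fun v => Con {w | |h w - c| ≤ 1} u v) ?_ ?_
  · refine Jn.refl ?_
    rw [Set.mem_ofPred_eq, hB u huv.left]
    simp
  · intro p q hpq hp hq h1
    have e1 : Adj p (p.1, q.2) := by
      unfold Adj
      have := hpq.2
      simp only [sub_self, abs_zero, zero_add]
      exact this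
    have e2 : Adj (p.1, q.2) q := by
      unfold Adj
      have := hpq.1
      simp only [sub_self, abs_zero, add_zero]
      exact this
    refine (h1.step e1 ?_).step e2 ?_
    · rw [Set.mem_ofPred_eq, ← hB p hp, abs_sub_comm, hst p hp _ e1]
    · rw [Set.mem_ofPred_eq, hB q hq]
      simp

/-- if `E` is contained in the square, level `0` is blocked -/
lemma blk_of_sub (H : Stp1 E s h g) (hn : Sq x n ⊆ (E : Set V)) (hN : (E : Set V) ⊆ Sq x N) :
    Blk x n N 0 g := by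
  rintro ⟨u, hu, v, hv, huv⟩
  obtain ⟨p, q, h1, h2, h3, h4, -, h6⟩ := huv.exit (A := (E : Set V)) (hn hu) (fun h' => hv (hN h'))
  exact h3 (H.bd p (mem_bdry.2 ⟨h4, q, adj_symm h2, h6⟩))

/-- crossings pass from the inner height function to the outer one -/
lemma crs_up (H : Stp1 E s h g) (hn : Sq x n ⊆ (E : Set V)) (hN : ¬ (E : Set V) ⊆ Sq x N)
    (hk : Even k) (hc : Crs x n N k g) : Crs x n N (s * (k + 2)) h := by
  obtain ⟨u, hu, v, hv, huv⟩ := hc
  rcases exit' huv (hn hu) with h1 | ⟨p, q, h1, h2, -, h4, -, h6⟩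
  · refine ⟨u, hu, v, hv, h1.mono (fun _ _ h => h) ?_⟩
    rintro w ⟨hw, hw'⟩
    rw [Set.mem_ofPred_eq, H.inn w hw', mul_s_abs H.s1, show 2 + g w - (k + 2) = g w - k by ring]
    exact hw
  · have hpb : p ∈ bdry E := mem_bdry.2 ⟨h4, q, adj_symm h2, h6⟩
    have hk0 : k = 0 := by
      have h7 := h1.right.1
      rw [Set.mem_ofPred_eq, H.bd p hpb, abs_le] at h7
      obtain ⟨c, rfl⟩ := hk
      omega
    subst hk0
    rw [Set.not_subset] at hN
    obtain ⟨y, hy, hy'⟩ := hN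
    obtain ⟨b, hb, hb'⟩ := exists_bd_out (bdd_coe E) hy hy'
    have hBd : ∀ v ∈ Bd (E : Set V), v ∈ bdry E := by
      intro v hv
      rw [Bd_coe] at hv
      exact hv
    have h7 : XCon (Bd (E : Set V)) p b := by
      refine bd_xcon (not_adj_of_par (q := 0) fun b hb => H.sc.par b (hBd b hb)) H.cnn ?_ ?_ hb
      · intro z hz z' hz'
        exact (H.sc.con z hz z' hz').mono (fun _ _ => adj_kng) subset_rfl
      · rw [Bd_coe]
        exact hpb
    have h8 : Con {w | |h w - 2 * s| ≤ 1} p b :=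
      xcon_con (fun v hv => H.bdh (hBd v hv)) (fun v hv => H.step v (bdry_subset _ (hBd v hv))) h7
    have h9 : Con {w | |h w - 2 * s| ≤ 1} u p := h1.mono (fun _ _ h => h) (by
      rintro w ⟨hw, hw'⟩
      rw [Set.mem_ofPred_eq, H.inn w hw', show s * (2 + g w) - 2 * s = s * (g w) - s * 0 by ring,
        mul_s_abs H.s1]
      exact hw)
    refine ⟨u, hu, b, hb', ?_⟩
    rw [show s * ((0 : ℤ) + 2) = 2 * s by ring]
    exact h9.trans h8

/-- the bad event passes to the inner height function -/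
lemma Wl_inner (H : Stp1 E s h g) (hn : Sq x n ⊆ (E : Set V)) (hW : Wl x n N a l h) :
    Wl x n N a (s * l + 2) g := by
  have h1 : NoB x n N g := by
    intro k hk hb
    refine hW.1 (s * (k + 2)) ?_ (blk_up H hn hb)
    exact (hk.add even_two).mul_left s
  refine ⟨h1, fun k hk hkl hc => ?_⟩
  by_cases hN : (E : Set V) ⊆ Sq x N
  · exact h1 0 Even.zero (blk_of_sub H hn hN)
  · refine hW.2 (s * (k + 2)) ((hk.add even_two).mul_left s) ?_ (crs_up H hn hN hk hc)
    have e : |s * (k + 2) + l| = |k + (s * l + 2)| := by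
      rcases H.s1 with h2 | h2
      · rw [h2]
        congr 1
        ring
      · rw [h2, show -1 * (k + 2) + l = -(k + (-1 * l + 2)) by ring, abs_neg]
    rw [e]
    exact hkl

/-- one exploration step -/
lemma stp1 (hD : SC D) (hh : h ∈ Om D) (hg : g ∈ Om (Ex D h x)) :
    Stp1 (Ex D h x) (sg (Ex D h x) h) (gl (Ex D h x) (sg (Ex D h x) h) h g) g := by
  have hE := Ex_SC (x := x) hD hh
  have h2 := gl_mem hD.con hh hg
  have h3 : Ex D (gl (Ex D h x) (sg (Ex D h x) h) h g) x = Ex D h x := Ex_gl hD.con hh hg x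
  refine ⟨hE, sg_or _ _, fun v hv => gl_in hv, (mem_Om.1 hg).1.off, (mem_Om.1 hg).2, ?_, ?_⟩
  · intro v hv w hw
    refine (mem_Om.1 h2).1.step v (Ex_sub hv) w ?_ hw
    by_contra hwD
    exact Ex_not_Cb hv (bdry_sub_Cb hh (mem_bdry.2 ⟨Ex_sub hv, w, adj_symm hw, hwD⟩))
  · rw [coe_Ex]
    exact comp_cnn _ _

/-- if the boundary cluster meets the square, level `0` crosses -/
lemma crs_of_Cb (hD : SC D) (hh : h ∈ Om D) {u : V} (hu : u ∈ Sq x n) (hu' : u ∈ Cb D h) (N : ℤ) :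
    Crs x n N 0 h := by
  obtain ⟨b, hb, hbu⟩ := hu'
  obtain ⟨hbD, z, hz, hz'⟩ := mem_bdry.1 (mem_coe.1 hb)
  obtain ⟨v, hv, hv'⟩ := reach_far hD.con hz' x N
  have h0 : ∀ w, w ∉ D → h w = 0 := (mem_Om.1 hh).1.off
  have h1 : Con {w | |h w - 0| ≤ 1} b u := hbu.mono (fun _ _ h => h) (fun w hw => by
    rw [Set.mem_ofPred_eq, sub_zero]
    exact hw.2)
  have h2 : Con {w | |h w - 0| ≤ 1} z v := hv'.mono (fun _ _ h => h) (fun w hw => by
    rw [Set.mem_ofPred_eq, h0 w (by simpa using hw)]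
    simp)
  exact ⟨u, hu, v, hv, ((Con.symm' h1).step (adj_symm hz) h2.left).trans h2⟩

/-- otherwise the square is inside one component -/
lemma sq_sub_Ex (hn0 : 0 ≤ n) (hn : Sq x n ⊆ (D : Set V)) (hC : ∀ u ∈ Sq x n, u ∉ Cb D h) :
    Sq x n ⊆ (Ex D h x : Set V) := by
  intro u hu
  have hx : x ∈ Sq x n := ⟨by simpa using hn0, by simpa using hn0⟩
  rw [coe_Ex]
  exact (Sq_cnn x n x hx u hu).mono (fun _ _ h => h) (fun w hw => ⟨hn hw, hC w hw⟩)

end FC
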