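import Pool.Agent.Helper36.DV.Fa

/-!
# Project DV (MP_973bc8_pr), block FLATC: the core estimate

`P_D (no even level is blocked and no crossing by |h - k| ≤ 1 for |k + l| ≤ a) ≤ (l^2 + cov) / a^2`.
-/

open Finset RP4 DV LG

namespace FC

variable {D E : Finset V} {h g : V → ℤ} {x y z : V} {n N a k l s : ℤ}

lemma lw_abs {h' : V → ℤ} (e : ∀ v, |h' v| = |h v|) : lw D h' = lw D h := by
  ext v
  simp only [lw, Set.mem_ofPred_eq, e]

lemma Cb_abs {h' : V → ℤ} (e : ∀ v, |h' v| = |h v|) : Cb D h' = Cb D h := by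
  unfold Cb
  rw [lw_abs e]

lemma Ex_abs {h' : V → ℤ} (e : ∀ v, |h' v| = |h v|) (x : V) : Ex D h' x = Ex D h x := by
  ext w
  rw [mem_Ex, mem_Ex, Cb_abs e]

lemma ind_congr {p q : Prop} (h : p ↔ q) : ind p = ind q := by rw [propext h]

lemma ind_le_ind {p q : Prop} (h : p → q) : ind p ≤ ind q := by
  by_cases hp : p
  · rw [ind_true hp, ind_true (h hp)]
  · rw [ind_false hp]
    exact ind_nonneg q

lemma avg_nonneg {S : Finset (V → ℤ)} {F : (V → ℤ) → ℝ} (hF : ∀ g ∈ S, 0 ≤ F g) : 0 ≤ avg S F :=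
  div_nonneg (sum_nonneg hF) (Nat.cast_nonneg _)

lemma avg_mono {S : Finset (V → ℤ)} {F G : (V → ℤ) → ℝ} (hF : ∀ g ∈ S, F g ≤ G g) :
    avg S F ≤ avg S G :=
  div_le_div_of_nonneg_right (sum_le_sum hF) (Nat.cast_nonneg _)

lemma avg_le_one {S : Finset (V → ℤ)} {F : (V → ℤ) → ℝ} (hF : ∀ g ∈ S, F g ≤ 1) : avg S F ≤ 1 := by
  unfold avg
  refine div_le_one_of_le₀ ?_ (Nat.cast_nonneg _)
  calc ∑ g ∈ S, F g ≤ ∑ _g ∈ S, (1 : ℝ) := sum_le_sum hF
    _ = S.card := by simp

lemma pr_eq_ind (S : Finset (V → ℤ)) (P : (V → ℤ) → Prop) : pr S P = avg S fun g => ind (P g) := by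
  unfold pr avg ind
  congr!

/-- joined nonzero sites have the same sign -/
lemma con_nz_pos {g : V → ℤ} {p : ℤ} (hg : IsHom D p g) (h : Con (nz g) y z) : 0 < g y * g z := by
  have hy : g y ≠ 0 := h.left
  refine h.prop (P := fun v => 0 < g y * g v) (mul_self_pos.2 hy) ?_
  intro u v huv hu hv h1
  have hu' : g u ≠ 0 := hu
  have hv' : g v ≠ 0 := hv
  have huD : u ∈ D := by
    by_contra hc
    exact hu' (hg.off u hc)
  have hvD : v ∈ D := by
    by_contra hc
    exact hv' (hg.off v hc)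
  have h2 := hg.step u huD v hvD huv
  have h3 : 0 < g u * g v := by
    rcases lt_or_gt_of_ne hu' with h4 | h4 <;> rcases lt_or_gt_of_ne hv' with h5 | h5
    · exact mul_pos_of_neg_of_neg h4 h5
    · exfalso
      rw [abs_eq (by norm_num)] at h2
      omega
    · exfalso
      rw [abs_eq (by norm_num)] at h2
      omega
    · exact mul_pos h4 h5
  by_contra hc
  push Not at hc
  have h4 : (g y * g u) * (g u * g v) = (g u * g u) * (g y * g v) := by ring
  have h5 : 0 < (g y * g u) * (g u * g v) := mul_pos h1 h3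
  have h6 : 0 < g u * g u := mul_self_pos.2 hu'
  rw [h4] at h5
  nlinarith

/-- for events of the absolute value, the restricted covariance is nonnegative -/
lemma cov_ind_nonneg (D : Finset V) (y z : V) {G : (V → ℤ) → Prop}
    (hG : ∀ h h' : V → ℤ, (∀ v, |h' v| = |h v|) → (G h' ↔ G h)) :
    0 ≤ ∑ h ∈ Om D, ind (G h) * ((h y : ℝ) * h z) := by
  have hS : SgnInv (Om D) := sgnInv_Zs D 0 (bdry D)
  set Φ : (V → ℤ) → ℝ := fun h => ind (G h) * ((h y : ℝ) * h z) * ind (¬ JnNz {y} {z} h) with hΦ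
  have h1 : ∑ g ∈ Om D, Φ g = -∑ g ∈ Om D, Φ g := by
    refine (sum_flA hS {y} Φ).symm.trans ?_
    rw [← Finset.sum_neg_distrib]
    refine Finset.sum_congr rfl fun g _ => ?_
    show ind (G (flA {y} g)) * (((flA {y} g y : ℤ) : ℝ) * ((flA {y} g z : ℤ) : ℝ)) *
      ind (¬ JnNz {y} {z} (flA {y} g)) = -(ind (G g) * ((g y : ℝ) * g z) * ind (¬ JnNz {y} {z} g))
    rw [ind_congr (hG _ _ (abs_flA {y} g)), ind_congr (not_congr jnNz_flA)]
    by_cases h : JnNz {y} {z} g
    · rw [ind_false (not_not.2 h)]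
      ring
    · rw [flA_on (Set.mem_singleton y), flA_off h (Set.mem_singleton z)]
      push_cast
      ring
  have h2 : ∑ g ∈ Om D, Φ g = 0 := by linarith
  have h3 : ∑ h ∈ Om D, ind (G h) * ((h y : ℝ) * h z) =
      ∑ h ∈ Om D, ind (G h) * ((h y : ℝ) * h z) * ind (JnNz {y} {z} h) + ∑ g ∈ Om D, Φ g := by
    rw [← Finset.sum_add_distrib]
    refine Finset.sum_congr rfl fun g _ => ?_
    show _ = _ + ind (G g) * ((g y : ℝ) * g z) * ind (¬ JnNz {y} {z} g)
    by_cases h : JnNz {y} {z} g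
    · rw [ind_true h, ind_false (not_not.2 h)]
      ring
    · rw [ind_false h, ind_true h]
      ring
  rw [h3, h2, add_zero]
  refine Finset.sum_nonneg fun g hg => ?_
  by_cases h : JnNz {y} {z} g
  · rw [ind_true h, mul_one]
    refine mul_nonneg (ind_nonneg _) ?_
    obtain ⟨u, hu, v, hv, huv⟩ := h
    rw [Set.mem_singleton_iff] at hu hv
    subst hu hv
    have h4 := con_nz_pos (mem_Om.1 hg).1 huv
    exact_mod_cast h4.le
  · rw [ind_false h, mul_zero]

/-- the covariance is nonnegative -/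
lemma cov_nonneg (D : Finset V) (y z : V) : 0 ≤ avg (Om D) (fun h => (h y : ℝ) * h z) := by
  have h1 := cov_ind_nonneg D y z (G := fun _ => True) (fun _ _ _ => Iff.rfl)
  simp only [ind_true trivial, one_mul] at h1
  exact div_nonneg h1 (Nat.cast_nonneg _)

/-- partition of the configurations whose component of `x` contains the set `U` -/
lemma sum_fib (D : Finset V) {U : Set V} (hx : x ∈ U) (F : (V → ℤ) → ℝ) [DecidablePred
    fun E : Finset V => U ⊆ (E : Set V)] :
    ∑ h ∈ Om D, ind (U ⊆ (Ex D h x : Set V)) * F h =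
      ∑ E ∈ D.powerset.filter (fun E : Finset V => U ⊆ (E : Set V)), ∑ h ∈ OmE D x E, F h := by
  classical
  have h2 := Finset.sum_fiberwise_of_maps_to
    (s := (Om D).filter (fun h => U ⊆ (Ex D h x : Set V)))
    (t := D.powerset.filter (fun E : Finset V => U ⊆ (E : Set V))) (g := fun h => Ex D h x)
    (fun h hh => mem_filter.2 ⟨mem_powerset.2 Ex_sub, (mem_filter.1 hh).2⟩) F
  have h3 : ∑ h ∈ Om D, ind (U ⊆ (Ex D h x : Set V)) * F h =
      ∑ h ∈ (Om D).filter (fun h => U ⊆ (Ex D h x : Set V)), F h := by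
    rw [Finset.sum_filter]
    refine sum_congr rfl fun h _ => ?_
    by_cases hp : U ⊆ (Ex D h x : Set V)
    · rw [if_pos hp, ind_true hp, one_mul]
    · rw [if_neg hp, ind_false hp, zero_mul]
  rw [h3, ← h2]
  refine sum_congr rfl fun E hE => ?_
  have hP : U ⊆ (E : Set V) := (mem_filter.1 hE).2
  congr 1
  ext h
  rw [mem_OmE, mem_filter, mem_filter]
  constructor
  · rintro ⟨⟨a, c⟩, b⟩
    exact ⟨a, by simpa using c hx, b⟩
  · rintro ⟨a, _, b⟩
    exact ⟨⟨a, by rw [b]; exact hP⟩, b⟩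

open Classical in
/-- recursion for the covariance: lower bound by the components which contain `U` -/
theorem cov_low (hD : SC D) {U : Set V} (hx : x ∈ U) (hy : y ∈ U) (hz : z ∈ U) :
    ∑ E ∈ D.powerset.filter (fun E : Finset V => U ⊆ (E : Set V)), pE D x E *
      (4 + avg (Om E) (fun g => (g y : ℝ) * g z)) ≤ avg (Om D) (fun h => (h y : ℝ) * h z) := by
  have hN : (0 : ℝ) < (Om D).card := by exact_mod_cast (Om_nonempty hD.par).card_pos
  have h1 := sum_fib D hx (fun h => (h y : ℝ) * h z)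
  have h2 := cov_ind_nonneg D y z (G := fun h => ¬ U ⊆ (Ex D h x : Set V))
    (fun h h' e => by rw [Ex_abs e])
  have h3 : ∑ h ∈ Om D, ((h y : ℝ) * h z) =
      ∑ h ∈ Om D, ind (U ⊆ (Ex D h x : Set V)) * ((h y : ℝ) * h z) +
      ∑ h ∈ Om D, ind (¬ U ⊆ (Ex D h x : Set V)) * ((h y : ℝ) * h z) := by
    rw [← sum_add_distrib]
    refine sum_congr rfl fun h _ => ?_
    by_cases hp : U ⊆ (Ex D h x : Set V)
    · rw [ind_true hp, ind_false (not_not.2 hp)]
      ring
    · rw [ind_false hp, ind_true hp]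
      ring
  have h4 : ∑ E ∈ D.powerset.filter (fun E : Finset V => U ⊆ (E : Set V)), pE D x E *
      (4 + avg (Om E) (fun g => (g y : ℝ) * g z)) =
      (∑ E ∈ D.powerset.filter (fun E : Finset V => U ⊆ (E : Set V)), ∑ h ∈ OmE D x E,
        ((h y : ℝ) * h z)) / (Om D).card := by
    rw [sum_div]
    refine sum_congr rfl fun E hE => ?_
    have hUE := (mem_filter.1 hE).2
    rw [sum_OmE_mul hD (by simpa using hUE hy) (by simpa using hUE hz) x]
    unfold pE
    ring
  rw [h4]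
  show _ ≤ (∑ h ∈ Om D, ((h y : ℝ) * h z)) / (Om D).card
  refine div_le_div_of_nonneg_right ?_ hN.le
  rw [← h1, h3]
  linarith

/-- the signs of the component cancel -/
lemma sum_sg (hD : SC D) (x : V) (E : Finset V) : ∑ h ∈ OmE D x E, (sg E h : ℝ) = 0 := by
  have hneg : ∀ h : V → ℤ, ∀ v, |(-h) v| = |h v| := fun h v => abs_neg _
  have hmem : ∀ h ∈ OmE D x E, -h ∈ OmE D x E := by
    intro h hh
    obtain ⟨h1, h2, h3⟩ := mem_OmE.1 hh
    rw [mem_OmE, Ex_abs (hneg h)]
    refine ⟨?_, h2, h3⟩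
    rw [mem_Om] at h1 ⊢
    refine ⟨⟨fun v hv => ?_, fun v hv => ?_, fun u hu v hv huv => ?_⟩, fun v hv => ?_⟩
    · rw [Pi.neg_apply, h1.1.off v hv, neg_zero]
    · have := h1.1.par v hv
      rw [Pi.neg_apply, Int.even_iff] at *
      omega
    · rw [Pi.neg_apply, Pi.neg_apply, show -h u - -h v = -(h u - h v) by ring, abs_neg]
      exact h1.1.step u hu v hv huv
    · rw [Pi.neg_apply, h1.2 v hv, neg_zero]
  have hsg : ∀ h ∈ OmE D x E, (sg E (-h) : ℝ) = -(sg E h : ℝ) := by
    intro h hh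
    obtain ⟨h1, h2, h3⟩ := mem_OmE.1 hh
    obtain ⟨h4, -, -⟩ := mem_OmE.1 (hmem h hh)
    have hxE : x ∈ E := by
      rw [← h3]
      exact h2
    obtain ⟨z, hz⟩ := LG.exists_notMem E
    obtain ⟨v, hv⟩ : ∃ v, v ∈ bdry E := by
      have huniv : Con (Set.univ : Set V) x z := by
        obtain ⟨x1, x2⟩ := x
        obtain ⟨z1, z2⟩ := z
        exact Jn.trans (v := (z1, x2)) (con_row' fun _ _ _ => trivial)
          (con_col' fun _ _ _ => trivial)
      obtain ⟨a, b, -, e2, -, e4, -, e6⟩ := huniv.exit (A := (E : Set V)) hxE hz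
      exact ⟨a, mem_bdry.2 ⟨e4, b, adj_symm e2, e6⟩⟩
    have e1 : h v = 2 * sg E h := by
      have := sg_spec (x := x) hD.con h1 (v := v) (by rw [h3]; exact hv)
      rwa [h3] at this
    have e2 : (-h) v = 2 * sg E (-h) := by
      have e3 : Ex D (-h) x = E := by rw [Ex_abs (hneg h), h3]
      have := sg_spec (x := x) hD.con h4 (v := v) (by rw [e3]; exact hv)
      rwa [e3] at this
    rw [Pi.neg_apply] at e2
    have e3 : sg E (-h) = -sg E h := by omega
    rw [e3]
    push_cast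
    ring
  have h1 : ∑ h ∈ OmE D x E, (sg E (-h) : ℝ) = ∑ h ∈ OmE D x E, (sg E h : ℝ) :=
    Finset.sum_nbij' (fun h => -h) (fun h => -h) hmem hmem (fun h _ => neg_neg h)
      (fun h _ => neg_neg h) (fun _ _ => rfl)
  rw [sum_congr rfl hsg, sum_neg_distrib] at h1
  linarith

/-- sum of the probabilities of the components -/
lemma sum_pE_le (D : Finset V) (x : V) (P : Finset V → Prop) [DecidablePred P] :
    ∑ E ∈ D.powerset.filter P, pE D x E ≤ 1 := by
  rw [sum_pE]
  exact avg_le_one fun g _ => ind_le_one _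

/-- CORE ESTIMATE -/
theorem core (hn0 : 0 ≤ n) (ha : 0 < a) (hy : y ∈ Sq x n) (hz : z ∈ Sq x n) :
    ∀ (D : Finset V), SC D → Sq x n ⊆ (D : Set V) → ∀ l : ℤ,
      avg (Om D) (fun h => ind (Wl x n N a l h)) ≤
        ((l : ℝ) ^ 2 + avg (Om D) (fun h => (h y : ℝ) * h z)) / (a : ℝ) ^ 2 := by
  classical
  have hx : x ∈ Sq x n := ⟨by simpa using hn0, by simpa using hn0⟩
  have haR : (0 : ℝ) < a := by exact_mod_cast ha
  intro D
  induction D using Finset.strongInduction with
  | H D ih =>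
  intro hD hn l
  have hN : (0 : ℝ) < (Om D).card := by exact_mod_cast (Om_nonempty hD.par).card_pos
  by_cases hl : |l| ≤ a
  · -- one exploration step
    have step1 : ∀ h ∈ Om D, ind (Wl x n N a l h) =
        ind (Sq x n ⊆ (Ex D h x : Set V)) * ind (Wl x n N a l h) := by
      intro h hh
      by_cases hW : Wl x n N a l h
      · have h1 : Sq x n ⊆ (Ex D h x : Set V) := by
          refine sq_sub_Ex hn0 hn fun u hu hu' => ?_
          refine hW.2 0 Even.zero (by rw [zero_add]; exact hl) (crs_of_Cb hD hh hu hu' N)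
        rw [ind_true h1, one_mul]
      · rw [ind_false hW, mul_zero]
    have step2 : ∀ E ∈ D.powerset.filter (fun E : Finset V => Sq x n ⊆ (E : Set V)),
        ∑ h ∈ OmE D x E, ind (Wl x n N a l h) ≤ (OmE D x E).card *
          (((l : ℝ) ^ 2 + 4 + avg (Om E) (fun g => (g y : ℝ) * g z)) / (a : ℝ) ^ 2) := by
      intro E hE
      rw [mem_filter, mem_powerset] at hE
      rcases (OmE D x E).eq_empty_or_nonempty with h0 | ⟨h0, hh0⟩
      · rw [h0]
        simp
      have hE' : SC E := by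
        obtain ⟨h1, -, h2⟩ := mem_OmE.1 hh0
        rw [← h2]
        exact Ex_SC hD h1
      have hlt : E ⊂ D := by
        refine ⟨hE.1, fun hDE => ?_⟩
        obtain ⟨h1, h3, h2⟩ := mem_OmE.1 hh0
        obtain ⟨z, hz⟩ := LG.exists_notMem D
        have huniv : Con (Set.univ : Set V) x z := by
          obtain ⟨x1, x2⟩ := x
          obtain ⟨z1, z2⟩ := z
          exact Jn.trans (v := (z1, x2)) (con_row' fun _ _ _ => trivial)
            (con_col' fun _ _ _ => trivial)
        obtain ⟨a, b, -, e2, -, e4, -, e6⟩ := huniv.exit (A := (D : Set V)) (hn hx) hz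
        have h4 : a ∈ Cb D h0 := bdry_sub_Cb h1 (mem_bdry.2 ⟨e4, b, adj_symm e2, e6⟩)
        have h5 : a ∈ Ex D h0 x := by
          rw [h2]
          exact hDE e4
        exact Ex_not_Cb h5 h4
      rw [markov hD x E]
      have key : ∀ h ∈ OmE D x E, avg (Om E) (fun g => ind (Wl x n N a l (gl E (sg E h) h g))) ≤
          ((l : ℝ) ^ 2 + 4 + avg (Om E) (fun g => (g y : ℝ) * g z)) / (a : ℝ) ^ 2 +
            (sg E h : ℝ) * (4 * l / (a : ℝ) ^ 2) := by
        intro h hh
        obtain ⟨h1, h3, h2⟩ := mem_OmE.1 hh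
        have e1 : avg (Om E) (fun g => ind (Wl x n N a l (gl E (sg E h) h g))) ≤
            avg (Om E) (fun g => ind (Wl x n N a (sg E h * l + 2) g)) := by
          refine avg_mono fun g hg => ind_le_ind fun hW => ?_
          have H := stp1 (x := x) hD h1 (g := g) (by rw [h2]; exact hg)
          rw [h2] at H
          exact Wl_inner H hE.2 hW
        refine e1.trans ((ih E hlt hE' hE.2 (sg E h * l + 2)).trans (le_of_eq ?_))
        have hs : (sg E h : ℝ) * (sg E h : ℝ) = 1 := by exact_mod_cast sg_sq E h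
        push_cast
        rw [show ((sg E h : ℝ) * l + 2) ^ 2 = (l : ℝ) ^ 2 + 4 + (sg E h : ℝ) * (4 * l) by
          linear_combination (l : ℝ) ^ 2 * hs]
        ring
      calc ∑ h ∈ OmE D x E, avg (Om E) (fun g => ind (Wl x n N a l (gl E (sg E h) h g)))
          ≤ ∑ h ∈ OmE D x E, (((l : ℝ) ^ 2 + 4 + avg (Om E) (fun g => (g y : ℝ) * g z)) /
            (a : ℝ) ^ 2 + (sg E h : ℝ) * (4 * l / (a : ℝ) ^ 2)) := sum_le_sum key
        _ = _ := by
          rw [sum_add_distrib, ← sum_mul, sum_sg hD x E, zero_mul, add_zero, sum_const,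
            nsmul_eq_mul]
    have h1 : avg (Om D) (fun h => ind (Wl x n N a l h)) ≤
        ∑ E ∈ D.powerset.filter (fun E : Finset V => Sq x n ⊆ (E : Set V)), pE D x E *
          (((l : ℝ) ^ 2 + 4 + avg (Om E) (fun g => (g y : ℝ) * g z)) / (a : ℝ) ^ 2) := by
      unfold avg
      rw [sum_congr rfl step1, sum_fib D hx, sum_div]
      refine sum_le_sum fun E hE => ?_
      unfold pE
      rw [div_mul_eq_mul_div]
      exact div_le_div_of_nonneg_right (step2 E hE) hN.le
    refine h1.trans ?_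
    have h2 := cov_low hD hx hy hz
    have h3 := sum_pE_le D x (fun E : Finset V => Sq x n ⊆ (E : Set V))
    have h4 : ∑ E ∈ D.powerset.filter (fun E : Finset V => Sq x n ⊆ (E : Set V)), pE D x E *
        (((l : ℝ) ^ 2 + 4 + avg (Om E) (fun g => (g y : ℝ) * g z)) / (a : ℝ) ^ 2) =
        ((l : ℝ) ^ 2 * ∑ E ∈ D.powerset.filter (fun E : Finset V => Sq x n ⊆ (E : Set V)), pE D x E +
          ∑ E ∈ D.powerset.filter (fun E : Finset V => Sq x n ⊆ (E : Set V)), pE D x E *
            (4 + avg (Om E) (fun g => (g y : ℝ) * g z))) / (a : ℝ) ^ 2 := by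
      rw [mul_sum, ← sum_add_distrib, sum_div]
      refine sum_congr rfl fun E _ => ?_
      ring
    rw [h4]
    refine div_le_div_of_nonneg_right ?_ (sq_nonneg _)
    have h5 : (0 : ℝ) ≤ (l : ℝ) ^ 2 := sq_nonneg _
    nlinarith
  · push Not at hl
    have h1 := cov_nonneg D y z
    have h2 : avg (Om D) (fun h => ind (Wl x n N a l h)) ≤ 1 := avg_le_one fun g _ => ind_le_one _
    refine h2.trans ?_
    rw [le_div_iff₀ (by positivity), one_mul]
    have h3 : (a : ℝ) < |(l : ℝ)| := by exact_mod_cast hl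
    have h4 : (a : ℝ) ^ 2 ≤ (l : ℝ) ^ 2 := by
      rw [← sq_abs (l : ℝ)]
      exact pow_le_pow_left₀ haR.le h3.le 2
    linarith

end FC
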