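import Pool.Agent.Helper36.DV.Fb
import Pool.Agent.Helper97.DV.Sm

/-!
# Project DV (MP_973bc8_pr), block FLATC: crossing estimates

Conditional crossing estimate at level `0` and crossing estimate at the levels `k` with `2 ≤ |k|`.
-/

open Finset RP4 DV LG

namespace FC

variable {D Z : Finset V} {p : ℤ} {x : V} {c : ℝ} {K n0 : ℤ}

/-- the event depends only on the absolute values off `S` -/
def AbsOff (S : Set V) (A : (V → ℤ) → Prop) : Prop :=
  ∀ h h' : V → ℤ, (∀ v, v ∉ S → |h v| = |h' v|) → A h → A h'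

/-- crossing by `|h| ≤ 1` -/
def C0 (x : V) (n N : ℤ) (h : V → ℤ) : Prop :=
  ∃ u ∈ Sq x n, ∃ v, v ∉ Sq x N ∧ Con {w | |h w| ≤ 1} u v

/-- crossing by `|h| ≤ 1` outside a square -/
def C1 (x : V) (n N : ℤ) (h : V → ℤ) : Prop :=
  ∃ u ∈ Sq x n, ∃ v, v ∉ Sq x N ∧ Con ({w | |h w| ≤ 1} ∩ (Sq x (n - 1))ᶜ) u v

lemma AbsOff.and {S : Set V} {A B : (V → ℤ) → Prop} (hA : AbsOff S A) (hB : AbsOff S B) :
    AbsOff S fun h => A h ∧ B h := fun h h' e hh => ⟨hA h h' e hh.1, hB h h' e hh.2⟩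

lemma AbsOff.sub {S S' : Set V} {A : (V → ℤ) → Prop} (hA : AbsOff S' A) (h : S ⊆ S') :
    AbsOff S A := fun h1 h2 e => hA h1 h2 fun v hv => e v fun h3 => hv (h h3)

lemma dec_C0 (x : V) (n N : ℤ) : Dec (C0 x n N) := by
  refine ⟨fun g => ?_, fun g g' h1 h2 h3 => ?_⟩
  · have e : {w : V | |absf g w| ≤ 1} = {w | |g w| ≤ 1} := by
      ext w
      show |(|g w|)| ≤ 1 ↔ |g w| ≤ 1
      rw [abs_abs]
    unfold C0
    rw [e]
  · obtain ⟨u, hu, v, hv, huv⟩ := h3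
    refine ⟨u, hu, v, hv, huv.mono (fun _ _ h => h) fun w hw => ?_⟩
    have h5 : |g' w| ≤ 1 := hw
    show |g w| ≤ 1
    rw [abs_of_nonneg (h1 w)]
    exact (h2 w).trans ((le_abs_self _).trans h5)

lemma absOff_C1 (x : V) (n N : ℤ) : AbsOff (Sq x (n - 1)) (C1 x n N) := by
  rintro h h' e ⟨u, hu, v, hv, huv⟩
  refine ⟨u, hu, v, hv, huv.mono (fun _ _ h => h) ?_⟩
  rintro w ⟨hw, hw'⟩
  refine ⟨?_, hw'⟩
  rw [Set.mem_ofPred_eq, ← e w hw']
  exact hw

lemma adj_sq {x a b : V} {n : ℤ} (hab : Adj a b) (hb : b ∈ Sq x (n - 1)) : a ∈ Sq x n := by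
  have e := adj_cases' hab
  obtain ⟨h1, h2⟩ := hb
  rw [abs_le] at h1 h2
  constructor <;> rw [abs_le] <;> omega

/-- the last visit to the square -/
lemma last_visit {S : Set V} {u v : V} {n : ℤ} (h : Con S u v) (hu : u ∈ Sq x n)
    (hv : v ∉ Sq x (n - 1)) : ∃ u' ∈ Sq x n, Con (S ∩ (Sq x (n - 1))ᶜ) u' v := by
  rcases exit' (Con.symm' h) (A := (Sq x (n - 1))ᶜ) hv with h1 | ⟨a, b, h1, h2, -, -, -, h6⟩
  · exact ⟨u, hu, Con.symm' h1⟩
  · refine ⟨a, adj_sq h2 (by simpa using h6), Con.symm' h1⟩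

lemma C0_to_C1 {n r N : ℤ} {h : V → ℤ} (hrn : r ≤ n) (hnN : n ≤ N) (hh : C0 x r N h) :
    C1 x n N h := by
  obtain ⟨u, hu, v, hv, huv⟩ := hh
  obtain ⟨u', hu', h1⟩ := last_visit huv (Sq_mono hrn hu) (n := n)
    fun h2 => hv (Sq_mono (by omega) h2)
  exact ⟨u', hu', v, hv, h1⟩

lemma C1_to_C0 {n N : ℤ} {h : V → ℤ} (hh : C1 x n N h) : C0 x n N h := by
  obtain ⟨u, hu, v, hv, huv⟩ := hh
  exact ⟨u, hu, v, hv, huv.mono (fun _ _ h => h) fun w hw => hw.1⟩

/-- a neighbour farther away -/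
lemma nbr_out {v : V} {R : ℤ} (hv : v ∉ Sq x R) : ∃ u, Adj u v ∧ u ∉ Sq x R := by
  rw [not_mem_Sq] at hv
  rcases hv with h | h | h | h
  · exact ⟨(v.1 + 1, v.2), by simp [Adj], not_mem_Sq.2 (by simp only; omega)⟩
  · exact ⟨(v.1 - 1, v.2), by simp [Adj], not_mem_Sq.2 (by simp only; omega)⟩
  · exact ⟨(v.1, v.2 + 1), by simp [Adj], not_mem_Sq.2 (by simp only; omega)⟩
  · exact ⟨(v.1, v.2 - 1), by simp [Adj], not_mem_Sq.2 (by simp only; omega)⟩

/-- conditioning on the fibres of a map -/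
lemma pr_fib {S : Finset (V → ℤ)} {A G : (V → ℤ) → Prop} {φ : (V → ℤ) → (V → ℤ)} {q : ℝ}
    (hA : ∀ h h', φ h = φ h' → A h → A h')
    (hq : ∀ h ∈ S, A h → ∀ B : Finset (V → ℤ), (∀ g, g ∈ B ↔ g ∈ S ∧ φ g = φ h) → pr B G ≤ q) :
    pr S (fun h => A h ∧ G h) ≤ q * pr S A := by
  classical
  have h1 : ((S.filter fun h => A h ∧ G h).card : ℝ) ≤ q * (S.filter A).card := by
    have e1 := Finset.card_eq_sum_card_fiberwise (f := φ) (s := S.filter fun h => A h ∧ G h)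
      (t := (S.filter A).image φ) (fun h hh => by
        rw [mem_coe, mem_filter] at hh
        exact mem_coe.2 (mem_image_of_mem _ (mem_filter.2 ⟨hh.1, hh.2.1⟩)))
    have e2 := Finset.card_eq_sum_card_fiberwise (f := φ) (s := S.filter A)
      (t := (S.filter A).image φ) (fun h hh => mem_coe.2 (mem_image_of_mem _ (mem_coe.1 hh)))
    rw [e1, e2]
    push_cast
    rw [mul_sum]
    refine sum_le_sum fun ζ hζ => ?_
    obtain ⟨h0, hh0, rfl⟩ := mem_image.1 hζ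
    rw [mem_filter] at hh0
    have h2 := hq h0 hh0.1 hh0.2 (S.filter fun g => φ g = φ h0) fun g => mem_filter
    have h3 : (0 : ℝ) < ((S.filter fun g => φ g = φ h0).card : ℝ) := by
      have h4 : h0 ∈ S.filter fun g => φ g = φ h0 := mem_filter.2 ⟨hh0.1, rfl⟩
      exact_mod_cast card_pos.2 ⟨h0, h4⟩
    rw [pr_eq, div_le_iff₀ h3] at h2
    have e3 : ((S.filter fun h => A h ∧ G h).filter fun g => φ g = φ h0) =
        (S.filter fun g => φ g = φ h0).filter G := by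
      ext g
      simp only [mem_filter]
      constructor
      · rintro ⟨⟨i1, i2, i3⟩, i4⟩
        exact ⟨⟨i1, i4⟩, i3⟩
      · rintro ⟨⟨i1, i4⟩, i3⟩
        exact ⟨⟨i1, hA h0 g i4.symm hh0.2, i3⟩, i4⟩
    have e4 : ((S.filter A).filter fun g => φ g = φ h0) = S.filter fun g => φ g = φ h0 := by
      ext g
      simp only [mem_filter]
      constructor
      · rintro ⟨⟨i1, i2⟩, i4⟩
        exact ⟨i1, i4⟩
      · rintro ⟨i1, i4⟩
        exact ⟨⟨i1, hA h0 g i4.symm hh0.2⟩, i4⟩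
    rw [e3, e4]
    exact h2
  rw [pr_eq, pr_eq, ← mul_div_assoc]
  exact div_le_div_of_nonneg_right h1 (Nat.cast_nonneg _)

open Classical in
/-- one annulus, conditionally on the absolute values outside -/
theorem crc (hLP : LP c K n0) {n R : ℤ} (hn : n0 ≤ n) (hb : bdry D ⊆ Z) (hZD : Z ⊆ D)
    (hZ : ∀ v ∈ Z, Even (par v + p)) (hR : K * n ≤ R) (hf : ∀ v ∈ Sq x R, v ∈ D ∧ v ∉ Z)
    {A : (V → ℤ) → Prop} (hA : AbsOff (Sq x R) A) :
    pr (Zs D p Z) (fun h => A h ∧ C0 x n (K * n - 1) h) ≤ (1 - c) * pr (Zs D p Z) A := by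
  obtain ⟨Z', hZ'⟩ : ∃ Z' : Finset V, ∀ v, v ∈ Z' ↔ v ∈ D ∧ (v ∈ Z ∨ (v ∉ Sq x R ∧
      Even (par v + p))) := ⟨D.filter fun v => v ∈ Z ∨ (v ∉ Sq x R ∧ Even (par v + p)),
    fun v => mem_filter⟩
  have hZZ : Z ⊆ Z' := fun v hv => (hZ' v).2 ⟨hZD hv, Or.inl hv⟩
  have hb' : bdry D ⊆ Z' := hb.trans hZZ
  have hZD' : Z' ⊆ D := fun v hv => ((hZ' v).1 hv).1
  have hZe' : ∀ v ∈ Z', Even (par v + p) := fun v hv => by
    rcases ((hZ' v).1 hv).2 with h1 | h1
    · exact hZ v h1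
    · exact h1.2
  have hne' : (Zs D p Z').Nonempty := ⟨_, flat_mem_Zs hb' hZD' fun v hv => by
    have h1 := hZe' v hv
    rw [Int.even_iff] at h1 ⊢
    omega⟩
  have h1 := hLP n hn x D p Z' hb' hZD' hZe' fun v hv _ => by
    have h2 := hf v (Sq_mono hR hv)
    refine ⟨h2.1, fun h3 => ?_⟩
    rcases ((hZ' v).1 h3).2 with h4 | h4
    · exact h2.2 h4
    · exact h4.1 (Sq_mono hR hv)
  have h2 : pr (Zs D p Z') (C0 x n (K * n - 1)) ≤ 1 - c := by
    have h3 := pr_not hne' (C0 x n (K * n - 1))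
    have h4 : c ≤ pr (Zs D p Z') fun h => ¬ C0 x n (K * n - 1) h := h1
    linarith
  refine pr_fib (φ := fun h v => if v ∈ Sq x R then 0 else |h v|) ?_ ?_
  · intro h h' e
    refine hA h h' fun v hv => ?_
    have := congrFun e v
    simpa only [if_neg hv] using this
  · intro h hh _ B hB
    rw [mem_Zs hb] at hh
    refine le_trans (fam_dec (D := D) (p := p) (B := ∅) (B' := ∅)
      (T := {ξ | (∀ v ∈ Z, ξ v = 0) ∧ ∀ v, v ∉ Sq x R → ξ v = |h v|}) (T' := Tb (Z' : Set V) 0)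
      (fam_Zs hb') ?_ ?_ ?_ le_rfl (fun _ _ _ _ v hv => absurd hv (Set.notMem_empty v)) hne'
      ⟨h, (hB h).2 ⟨(mem_Zs hb).2 hh, rfl⟩⟩ (dec_C0 x n (K * n - 1))) h2
    · intro g
      rw [hB, mem_Zs hb]
      constructor
      · rintro ⟨⟨i1, i2⟩, i3⟩
        refine ⟨i1, ⟨fun v hv => ?_, fun v hv => ?_⟩, fun v hv => absurd hv (Set.notMem_empty v)⟩
        · show |g v| = 0
          rw [i2 v hv, abs_zero]
        · have := congrFun i3 v
          simp only [if_neg hv] at this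
          exact this
      · rintro ⟨i1, ⟨i2, i3⟩, -⟩
        refine ⟨⟨i1, fun v hv => ?_⟩, ?_⟩
        · have i4 : |g v| = 0 := i2 v hv
          exact abs_eq_zero.1 i4
        · funext v
          by_cases hv : v ∈ Sq x R
          · simp only [if_pos hv]
          · simp only [if_neg hv]
            exact i3 v hv
    · intro ξ' i1 ξ i2 _ _ _ i3 v hv
      have i4 : ξ' v = 0 := i1 v hv
      rw [Pi.inf_apply, i4]
      exact min_eq_left (i3 v)
    · intro ξ' i1 ξ i2 j1 j2 _ i3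
      refine ⟨fun v hv => ?_, fun v hv => ?_⟩
      · have i4 : ξ' v = 0 := i1 v (hZZ hv)
        rw [Pi.sup_apply, i4, i2.1 v hv]
        exact max_self 0
      · rw [Pi.sup_apply, ← i2.2 v hv]
        refine max_eq_right ?_
        by_cases hvD : v ∈ D
        · by_cases hve : Even (par v + p)
          · have i4 : ξ' v = 0 := i1 v ((hZ' v).2 ⟨hvD, Or.inr ⟨hv, hve⟩⟩)
            rw [i4]
            exact i3 v
          · obtain ⟨u, hu, hu'⟩ := nbr_out hv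
            have huD : u ∈ D := by
              by_contra huD
              exact hve (hZ v (hb (mem_bdry.2 ⟨hvD, u, hu, huD⟩)))
            have hue : Even (par u + p) := by
              have h5 := adj_parity hu p
              exact h5.2 hve
            have i4 : ξ' u = 0 := i1 u ((hZ' u).2 ⟨huD, Or.inr ⟨hu', hue⟩⟩)
            have i5 := j1.step u huD v hvD hu
            have i6 := j2.par v hvD
            have i7 := i3 v
            rw [i4, zero_sub, abs_neg] at i5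
            have i8 := le_abs_self (ξ' v)
            rw [Int.even_iff] at i6
            rw [Int.not_even_iff] at hve
            omega
        · rw [j1.off v hvD]
          exact i3 v

/-- several annuli, conditionally on the absolute values outside -/
theorem crcs (hLP : LP c K n0) (hc : c ≤ 1) (hb : bdry D ⊆ Z) (hZD : Z ⊆ D)
    (hZ : ∀ v ∈ Z, Even (par v + p)) (m : ℕ) : ∀ {r M : ℤ}, n0 ≤ r → 1 ≤ r →
    (|K| + 2) ^ m * r ≤ M → (∀ v ∈ Sq x M, v ∈ D ∧ v ∉ Z) →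
    ∀ {A : (V → ℤ) → Prop}, AbsOff (Sq x M) A →
    pr (Zs D p Z) (fun h => A h ∧ C0 x r M h) ≤ (1 - c) ^ m * pr (Zs D p Z) A := by
  induction m with
  | zero =>
    intro r M _ _ _ _ A _
    rw [pow_zero, one_mul]
    exact pr_mono fun h _ hh => hh.1
  | succ m ih =>
    intro r M hr hr1 hM hf A hA
    have hK := abs_nonneg K
    have hp : (1 : ℤ) ≤ (|K| + 2) ^ m := one_le_pow₀ (by omega)
    have h1 : (|K| + 2) ^ m * ((|K| + 2) * r) ≤ M := by
      refine le_trans (le_of_eq ?_) hM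
      rw [pow_succ]
      ring
    have h2 : (|K| + 2) * r = |K| * r + 2 * r := by ring
    have h3 : K * r ≤ |K| * r := mul_le_mul_of_nonneg_right (le_abs_self K) (by omega)
    have h4 : 0 ≤ |K| * r := mul_nonneg hK (by omega)
    have h5 : (|K| + 2) * r ≤ M := by
      refine le_trans ?_ h1
      nlinarith
    have e1 := ih (r := (|K| + 2) * r) (M := M) (by omega) (by omega) h1 hf hA
    have e2 := crc (x := x) hLP (n := r) (R := (|K| + 2) * r - 1) hr hb hZD hZ (by omega)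
      (fun v hv => hf v (Sq_mono (by omega) hv))
      (A := fun h => A h ∧ C1 x ((|K| + 2) * r) M h)
      ((hA.sub (Sq_mono (by omega))).and (absOff_C1 x _ _))
    have e3 : pr (Zs D p Z) (fun h => A h ∧ C0 x r M h) ≤ pr (Zs D p Z)
        (fun h => (A h ∧ C1 x ((|K| + 2) * r) M h) ∧ C0 x r (K * r - 1) h) := by
      refine pr_mono fun h _ hh => ⟨⟨hh.1, C0_to_C1 (by omega) h5 hh.2⟩, ?_⟩
      obtain ⟨u, hu, v, hv, huv⟩ := hh.2
      exact ⟨u, hu, v, fun h6 => hv (Sq_mono (by omega) h6), huv⟩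
    have e4 : pr (Zs D p Z) (fun h => A h ∧ C1 x ((|K| + 2) * r) M h) ≤
        pr (Zs D p Z) (fun h => A h ∧ C0 x ((|K| + 2) * r) M h) :=
      pr_mono fun h _ hh => ⟨hh.1, C1_to_C0 hh.2⟩
    calc pr (Zs D p Z) (fun h => A h ∧ C0 x r M h)
        ≤ (1 - c) * pr (Zs D p Z) (fun h => A h ∧ C1 x ((|K| + 2) * r) M h) := e3.trans e2
      _ ≤ (1 - c) * ((1 - c) ^ m * pr (Zs D p Z) A) :=
          mul_le_mul_of_nonneg_left (e4.trans e1) (by linarith)
      _ = _ := by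
        rw [pow_succ]
        ring

/-- crossings of `|h - k| ≤ 1` inside `D` -/
def Ck (D : Finset V) (x : V) (r M k : ℤ) (h : V → ℤ) : Prop :=
  ∃ u v, u ∈ Sq x r ∧ v ∉ Sq x M ∧ Con {w | w ∈ D ∧ |h w - k| ≤ 1} u v

/-- crossings of `|h| ≤ 1` inside `D` -/
def Cd (D : Finset V) (x : V) (r M : ℤ) (h : V → ℤ) : Prop :=
  ∃ u v, u ∈ Sq x r ∧ v ∉ Sq x M ∧ Con {w | w ∈ D ∧ |h w| ≤ 1} u v

lemma dec_Cd (D : Finset V) (x : V) (r M : ℤ) : Dec (Cd D x r M) := by
  refine ⟨fun g => ?_, fun g g' h1 h2 h3 => ?_⟩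
  · have e : {w : V | w ∈ D ∧ |absf g w| ≤ 1} = {w | w ∈ D ∧ |g w| ≤ 1} := by
      ext w
      show (w ∈ D ∧ |(|g w|)| ≤ 1) ↔ (w ∈ D ∧ |g w| ≤ 1)
      rw [abs_abs]
    unfold Cd
    rw [e]
  · obtain ⟨u, v, hu, hv, huv⟩ := h3
    refine ⟨u, v, hu, hv, huv.mono (fun _ _ h => h) fun w hw => ⟨hw.1, ?_⟩⟩
    have h5 : |g' w| ≤ 1 := hw.2
    rw [abs_of_nonneg (h1 w)]
    exact (h2 w).trans ((le_abs_self _).trans h5)

lemma Ck_rfc {r M k : ℤ} {g : V → ℤ} : Ck D x r M k (rfc D k g) ↔ Cd D x r M g := by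
  have e : {w : V | w ∈ D ∧ |rfc D k g w - k| ≤ 1} = {w | w ∈ D ∧ |g w| ≤ 1} := by
    ext w
    show (w ∈ D ∧ |rfc D k g w - k| ≤ 1) ↔ (w ∈ D ∧ |g w| ≤ 1)
    refine and_congr_right fun hw => ?_
    rw [rfc_in hw, show k - g w - k = -g w by ring, abs_neg]
  unfold Ck Cd
  rw [e]

/-- the crossing at level `k` as a crossing at level `0` with boundary value `k` -/
lemma pr_Ck {k : ℤ} (hk : Even k) (hb : bdry D ⊆ Z) (hZD : Z ⊆ D) (r M : ℤ) :
    pr (Hb D p (Z : Set V) fun _ => k) (Cd D x r M) = pr (Zs D p Z) (Ck D x r M k) := by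
  have e1 := pr_rfc (D := D) (p := p) (s := k) hk (Z := (Z : Set V)) (β := fun _ => k)
    (by exact_mod_cast hb) (by exact_mod_cast hZD) (Ck D x r M k)
  have e2 : (fun v : V => k - (fun _ : V => k) v) = 0 := by
    funext v
    simp
  rw [e2, ← Zs_eq_Hb hb] at e1
  rw [← e1]
  exact pr_congr fun g _ => Ck_rfc.symm

/-- crossings at level `k ≥ 2` are less likely than at level `2` -/
theorem Ck_le_two (hb : bdry D ⊆ Z) (hZD : Z ⊆ D) (hZ : ∀ v ∈ Z, Even (par v + p)) {k : ℤ}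
    (hk : Even k) (hk2 : 2 ≤ k) (r M : ℤ) :
    pr (Zs D p Z) (Ck D x r M k) ≤ pr (Zs D p Z) (Ck D x r M 2) := by
  have hbZ : (bdry D : Set V) ⊆ (Z : Set V) := by exact_mod_cast hb
  have hZD' : (Z : Set V) ⊆ (D : Set V) := by exact_mod_cast hZD
  have hne : ∀ s : ℤ, Even s → (Hb D p (Z : Set V) fun _ => s).Nonempty := by
    intro s hs
    have h1 : flat D p ∈ Zs D p Z := flat_mem_Zs hb hZD fun v hv => by
      have h1 := hZ v hv
      rw [Int.even_iff] at h1 ⊢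
      omega
    rw [mem_Zs hb] at h1
    refine ⟨rfc D s (flat D p), (mem_Hb hbZ).2 ⟨hom_congr (rfc_hom h1.1) ?_, fun v hv => ?_⟩⟩
    · rwa [add_sub_cancel_left]
    · rw [rfc_in (hZD' hv), h1.2 v (by exact_mod_cast hv), sub_zero]
  rw [← pr_Ck hk hb hZD, ← pr_Ck even_two hb hZD]
  have h1 := bdv_inc (D := D) (p := p) (Z := (Z : Set V)) (β := fun _ => k) (β' := fun _ => 2)
    (fun _ _ => by norm_num) (fun _ _ => hk2) (fun g => mem_Hb hbZ) (fun g => mem_Hb hbZ)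
    (hne 2 even_two) (hne k hk) (dec_Cd D x r M).not.incF
  have h2 : pr (Hb D p (Z : Set V) fun _ => 2) (fun g => ¬ Cd D x r M g) ≤
      pr (Hb D p (Z : Set V) fun _ => k) (fun g => ¬ Cd D x r M g) := h1
  rw [pr_not (hne 2 even_two), pr_not (hne k hk)] at h2
  linarith

/-- crossings at the levels `2 ≤ |k|` -/
theorem Ck_le (hLP : LP c K n0) (hc : c ≤ 1) (hb : bdry D ⊆ Z) (hZD : Z ⊆ D)
    (hZ : ∀ v ∈ Z, Even (par v + p)) {k : ℤ} (hk : Even k) (hk2 : 2 ≤ |k|) (m : ℕ) {r M : ℤ}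
    (hr : 1 ≤ r) (hM : (|n0| + 5) * (2 * |K| + 6) ^ m * r ≤ M) :
    pr (Zs D p Z) (Ck D x r M k) ≤ (1 - c / 2) ^ m := by
  have key : ∀ k : ℤ, Even k → 2 ≤ k → pr (Zs D p Z) (Ck D x r M k) ≤ (1 - c / 2) ^ m :=
    fun k hk hk2 => (Ck_le_two hb hZD hZ hk hk2 r M).trans
      (cross_sq hLP (by linarith) hb hZD hZ x m hr hM)
  rcases abs_cases k with h | h
  · exact key k hk (by omega)
  · refine le_trans (le_of_eq ?_) (key (-k) hk.neg (by omega))
    rw [← pr_neg_Zs hb]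
    refine pr_congr fun h _ => ?_
    have e : {w : V | w ∈ D ∧ |(-h) w - k| ≤ 1} = {w | w ∈ D ∧ |h w - -k| ≤ 1} := by
      ext w
      show (w ∈ D ∧ |-(h w) - k| ≤ 1) ↔ (w ∈ D ∧ |h w - -k| ≤ 1)
      rw [show -(h w) - k = -(h w - -k) by ring, abs_neg]
    unfold Ck
    rw [e]

/-- crossings at any even level, in a domain that contains a slightly larger square -/
theorem crs_le (hLP : LP c K n0) (hc0 : 0 ≤ c) (hc : c ≤ 1) (hD : BdryPar D 0) {k : ℤ} (hk : Even k) (m : ℕ)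
    {r M : ℤ} (hr : 1 ≤ r) (hM : (|n0| + 5) * (2 * |K| + 6) ^ m * r ≤ M)
    (hf : Sq x (M + 1) ⊆ (D : Set V)) : pr (Om D) (Crs x r M k) ≤ (1 - c / 2) ^ m := by
  have hZ : ∀ v ∈ bdry D, Even (par v + 0) := fun v hv => by
    have h1 := hD v hv
    rw [Int.even_iff] at h1 ⊢
    omega
  have hn0 := abs_nonneg n0
  have hn0' := le_abs_self n0
  have hK := abs_nonneg K
  by_cases hk0 : k = 0
  · subst hk0
    have hfree : ∀ v ∈ Sq x M, v ∈ D ∧ v ∉ bdry D := by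
      intro v hv
      refine ⟨hf (Sq_mono (by omega) hv), fun h1 => ?_⟩
      obtain ⟨-, u, hu, hu'⟩ := mem_bdry.1 h1
      exact hu' (hf (adj_sq (n := M + 1) hu (by simpa using hv)))
    have h1 : (|n0| + 1) * r ≤ (|n0| + 5) * r := mul_le_mul_of_nonneg_right (by omega) (by omega)
    have h2 : (|K| + 2) ^ m ≤ (2 * |K| + 6) ^ m := pow_le_pow_left₀ (by omega) (by omega) m
    have h3 : (|K| + 2) ^ m * ((|n0| + 1) * r) ≤ M := by
      refine le_trans ?_ hM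
      calc (|K| + 2) ^ m * ((|n0| + 1) * r) ≤ (2 * |K| + 6) ^ m * ((|n0| + 5) * r) :=
            mul_le_mul h2 h1 (mul_nonneg (by omega) (by omega)) (pow_nonneg (by omega) m)
        _ = _ := by ring
    have h4 : |n0| * r ≥ |n0| := by nlinarith
    have h5 : (|n0| + 1) * r = |n0| * r + r := by ring
    have h6 := crcs (x := x) hLP hc (Finset.Subset.refl _) (bdry_subset D) hZ m
      (r := (|n0| + 1) * r) (M := M) (by omega) (by omega) h3 hfree (A := fun _ => True)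
      (fun _ _ _ h => h)
    have h7 : pr (Om D) (Crs x r M 0) ≤ pr (Zs D 0 (bdry D))
        (fun h => True ∧ C0 x ((|n0| + 1) * r) M h) := by
      refine pr_mono fun h _ hh => ⟨trivial, ?_⟩
      obtain ⟨u, hu, v, hv, huv⟩ := hh
      refine ⟨u, Sq_mono (by omega) hu, v, hv, huv.mono (fun _ _ h => h) fun w hw => ?_⟩
      have h8 : |h w - 0| ≤ 1 := hw
      rw [sub_zero] at h8
      exact h8
    have h8 := pr_le_one (Zs D 0 (bdry D)) (fun _ => True)
    have h9 : (1 - c) ^ m ≤ (1 - c / 2) ^ m := pow_le_pow_left₀ (by linarith) (by linarith) m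
    have h10 : (0 : ℝ) ≤ (1 - c) ^ m := pow_nonneg (by linarith) m
    calc pr (Om D) (Crs x r M 0) ≤ _ := h7
      _ ≤ _ := h6
      _ ≤ (1 - c) ^ m * 1 := mul_le_mul_of_nonneg_left h8 h10
      _ ≤ _ := by linarith
  · have hk2 : 2 ≤ |k| := by
      obtain ⟨j, rfl⟩ := hk
      rcases abs_cases (j + j) with h | h <;> omega
    refine le_trans (pr_mono fun h hh hcr => ?_) (Ck_le (x := x) hLP hc (Finset.Subset.refl _)
      (bdry_subset D) hZ hk hk2 m hr hM)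
    obtain ⟨u, hu, v, hv, huv⟩ := hcr
    refine ⟨u, v, hu, hv, huv.mono (fun _ _ h => h) fun w hw => ⟨?_, hw⟩⟩
    by_contra hwD
    have h1 : |h w - k| ≤ 1 := hw
    rw [(mem_Om.1 hh).1.off w hwD, zero_sub, abs_neg] at h1
    omega

end FC
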