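import Pool.Agent.Helper36.DV.Fc

/-!
# Project DV (MP_973bc8_pr), block FLATC: (5c) and (5d)
-/

open Finset RP4 DV LG

namespace FC

variable {D : Finset V} {x : V} {c : ℝ} {K n0 : ℤ}

lemma avg_add' (S : Finset (V → ℤ)) (F G : (V → ℤ) → ℝ) :
    avg S (fun g => F g + G g) = avg S F + avg S G := by
  unfold avg
  rw [sum_add_distrib, add_div]

lemma avg_sum' {ι : Type*} (s : Finset ι) (S : Finset (V → ℤ)) (F : ι → (V → ℤ) → ℝ) :
    avg S (fun g => ∑ i ∈ s, F i g) = ∑ i ∈ s, avg S (F i) := by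
  unfold avg
  rw [sum_comm, sum_div]

lemma NoB_mono {n N N' : ℤ} (h : N ≤ N') {g : V → ℤ} (hg : NoB x n N' g) : NoB x n N g := by
  intro k hk hb
  refine hg k hk fun ⟨u, hu, v, hv, huv⟩ => hb ⟨u, hu, v, fun h1 => hv (Sq_mono h h1), huv⟩

/-- (5c) -/
theorem fivec (hLP : LP c K n0) (hc0 : 0 ≤ c) (hc : c ≤ 1) (hD : SC D) (m : ℕ) {r M : ℤ}
    (hr : 1 ≤ r) (hM : (|n0| + 5) * (2 * |K| + 6) ^ m * r ≤ M)
    (hf : Sq x (M + 1) ⊆ (D : Set V)) {a : ℕ} (ha : 0 < a) {y z : V} (hy : y ∈ Sq x r)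
    (hz : z ∈ Sq x r) :
    avg (Om D) (fun h => ind (NoB x r M h)) ≤
      avg (Om D) (fun h => (h y : ℝ) * h z) / (a : ℝ) ^ 2 + (2 * a + 1) * (1 - c / 2) ^ m := by
  have hn0 := abs_nonneg n0
  have hK := abs_nonneg K
  have hp : (1 : ℤ) ≤ (2 * |K| + 6) ^ m := one_le_pow₀ (by omega)
  have hrM : r ≤ M := by
    refine le_trans ?_ hM
    have h1 : (1 : ℤ) ≤ (|n0| + 5) * (2 * |K| + 6) ^ m := by nlinarith
    nlinarith
  have h1 := core (N := M) (a := (a : ℤ)) (by omega) (by exact_mod_cast ha) hy hz D hD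
    ((Sq_mono (by omega)).trans hf) 0
  have h2 : ∀ h ∈ Om D, ind (NoB x r M h) ≤ ind (Wl x r M a 0 h) +
      ∑ k ∈ Finset.Icc (-(a : ℤ)) a, ind (Even k ∧ Crs x r M k h) := by
    intro h _
    by_cases h3 : NoB x r M h
    · by_cases h4 : Wl x r M a 0 h
      · rw [ind_true h3, ind_true h4]
        have : 0 ≤ ∑ k ∈ Finset.Icc (-(a : ℤ)) a, ind (Even k ∧ Crs x r M k h) :=
          sum_nonneg fun _ _ => ind_nonneg _
        linarith
      · rw [ind_true h3, ind_false h4, zero_add]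
        have h5 : ∃ k, Even k ∧ |k + 0| ≤ (a : ℤ) ∧ Crs x r M k h := by
          by_contra h5
          push Not at h5
          exact h4 ⟨h3, fun k hk hk2 => h5 k hk hk2⟩
        obtain ⟨k, hk, hka, hkc⟩ := h5
        rw [add_zero, abs_le] at hka
        have h6 := single_le_sum (f := fun k => ind (Even k ∧ Crs x r M k h))
          (fun _ _ => ind_nonneg _) (mem_Icc.2 hka)
        simp only [ind_true (show Even k ∧ Crs x r M k h from ⟨hk, hkc⟩)] at h6
        exact h6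
    · rw [ind_false h3]
      exact add_nonneg (ind_nonneg _) (sum_nonneg fun _ _ => ind_nonneg _)
  have h3 := avg_mono h2
  rw [avg_add', avg_sum'] at h3
  have h4 : ∀ k ∈ Finset.Icc (-(a : ℤ)) a,
      avg (Om D) (fun h => ind (Even k ∧ Crs x r M k h)) ≤ (1 - c / 2) ^ m := by
    intro k _
    by_cases hk : Even k
    · have h5 := crs_le (x := x) hLP hc0 hc hD.par hk m hr hM hf
      rw [pr_eq_ind] at h5
      refine le_trans (avg_mono fun h _ => ind_le_ind fun h6 => h6.2) h5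
    · have h5 : avg (Om D) (fun h => ind (Even k ∧ Crs x r M k h)) ≤ 0 := by
        refine le_trans (avg_mono (G := fun _ => 0) fun h _ => ?_) (le_of_eq ?_)
        · rw [ind_false fun h6 => hk h6.1]
        · unfold avg
          simp
      exact h5.trans (pow_nonneg (by linarith) m)
  have h5 := sum_le_card_nsmul _ _ _ h4
  have h6 : (Finset.Icc (-(a : ℤ)) a).card = 2 * a + 1 := by
    rw [Int.card_Icc]
    omega
  rw [h6, nsmul_eq_mul] at h5
  push_cast at h5
  have h7 : ((0 : ℤ) : ℝ) ^ 2 + avg (Om D) (fun h => (h y : ℝ) * h z) =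
      avg (Om D) (fun h => (h y : ℝ) * h z) := by
    push_cast
    ring
  rw [h7] at h1
  have h8 : (((a : ℤ) : ℝ)) = (a : ℝ) := by push_cast; rfl
  rw [h8] at h1
  linarith

/-- the boundary cluster meets the square, seen from outside -/
def A1 (D : Finset V) (x : V) (N : ℤ) (h : V → ℤ) : Prop :=
  ∃ b ∈ bdry D, ∃ u ∈ Sq x N, Con ({w | w ∈ D ∧ |h w| ≤ 1} ∩ (Sq x (N - 1))ᶜ) b u

/-- the boundary cluster meets the square -/
def Mt (D : Finset V) (x : V) (N : ℤ) (h : V → ℤ) : Prop := ∃ u ∈ Sq x N, u ∈ Cb D h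

lemma bdry_far {N : ℤ} (hD : Sq x N ⊆ (D : Set V)) {b : V} (hb : b ∈ bdry D) :
    b ∉ Sq x (N - 1) := by
  intro h1
  obtain ⟨-, u, hu, hu'⟩ := mem_bdry.1 hb
  exact hu' (hD (adj_sq hu h1))

lemma A1_iff {N : ℤ} (hD : Sq x N ⊆ (D : Set V)) {h : V → ℤ} : Mt D x N h ↔ A1 D x N h := by
  constructor
  · rintro ⟨u, hu, b, hb, hbu⟩
    have hb' : b ∈ bdry D := hb
    rcases exit' hbu (A := (Sq x (N - 1))ᶜ) (bdry_far hD hb') with h1 | ⟨a, b', h1, h2, -, -, -, h6⟩
    · exact ⟨b, hb', u, hu, h1⟩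
    · exact ⟨b, hb', a, adj_sq h2 (by simpa using h6), h1⟩
  · rintro ⟨b, hb, u, hu, hbu⟩
    exact ⟨u, hu, b, hb, hbu.mono (fun _ _ h => h) fun w hw => hw.1⟩

lemma absOff_A1 (D : Finset V) (x : V) (N : ℤ) : AbsOff (Sq x (N - 1)) (A1 D x N) := by
  rintro h h' e ⟨b, hb, u, hu, hbu⟩
  refine ⟨b, hb, u, hu, hbu.mono (fun _ _ h => h) ?_⟩
  rintro w ⟨⟨hw1, hw2⟩, hw'⟩
  refine ⟨⟨hw1, ?_⟩, hw'⟩
  rw [← e w hw']
  exact hw2

/-- the boundary cluster rarely penetrates from `N1` to `N0` -/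
theorem pr_Mt (hLP : LP c K n0) (hc : c ≤ 1) (hD : BdryPar D 0) (s : ℕ) {N0 N1 : ℤ}
    (h0 : n0 ≤ N0) (h1 : 1 ≤ N0) (h2 : (|K| + 2) ^ s * N0 ≤ N1 - 1)
    (hf : Sq x N1 ⊆ (D : Set V)) :
    pr (Om D) (Mt D x N0) ≤ (1 - c) ^ s * pr (Om D) (Mt D x N1) := by
  have hZ : ∀ v ∈ bdry D, Even (par v + 0) := fun v hv => by
    have h1 := hD v hv
    rw [Int.even_iff] at h1 ⊢
    omega
  have hK := abs_nonneg K
  have hp : (1 : ℤ) ≤ (|K| + 2) ^ s := one_le_pow₀ (by omega)
  have hN : N0 ≤ N1 - 1 := le_trans (by nlinarith) h2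
  have h3 := crcs (x := x) (p := 0) hLP hc (Finset.Subset.refl (bdry D)) (bdry_subset D) hZ s
    (r := N0) (M := N1 - 1) h0 h1 h2 (fun v hv => ⟨hf (Sq_mono (by omega) hv),
      fun h4 => bdry_far hf h4 hv⟩) (absOff_A1 D x N1)
  have h4 : pr (Zs D 0 (bdry D)) (A1 D x N1) = pr (Om D) (Mt D x N1) :=
    pr_congr fun h _ => (A1_iff hf).symm
  rw [h4] at h3
  refine le_trans (pr_mono fun h _ hh => ?_) h3
  obtain ⟨u, hu, b, hb, hbu⟩ := hh
  have hb' : b ∈ bdry D := hb
  refine ⟨(A1_iff hf).1 ⟨u, Sq_mono (by omega) hu, b, hb, hbu⟩, u, hu, b, bdry_far hf hb',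
    (Con.symm' hbu).mono (fun _ _ h => h) fun w hw => hw.2⟩

open Classical in
/-- (5d) -/
theorem fived (hLP : LP c K n0) (hc : c ≤ 1) (s : ℕ) {r N N1 : ℤ} (hrN : r ≤ N + 1)
    (h0 : n0 ≤ N + 1) (h1 : 1 ≤ N + 1) (h2 : (|K| + 2) ^ s * (N + 1) ≤ N1 - 1) {β : ℝ}
    (hβ0 : 0 ≤ β)
    (hβ : ∀ E : Finset V, SC E → Sq x (N + 1) ⊆ (E : Set V) → ¬ Sq x N1 ⊆ (E : Set V) →
      avg (Om E) (fun h => ind (NoB x r N h)) ≤ β) :
    ∀ D : Finset V, SC D → Sq x (N + 1) ⊆ (D : Set V) →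
      avg (Om D) (fun h => ind (NoB x r N h)) ≤ β + (1 - c) ^ s := by
  have hx : x ∈ Sq x (N + 1) := ⟨by simp; omega, by simp; omega⟩
  have hcs : (0 : ℝ) ≤ (1 - c) ^ s := pow_nonneg (by linarith) s
  intro D
  induction D using Finset.strongInduction with
  | H D ih =>
  intro hD hn
  by_cases hN1 : Sq x N1 ⊆ (D : Set V)
  · have hN : (0 : ℝ) < (Om D).card := by exact_mod_cast (Om_nonempty hD.par).card_pos
    -- pointwise bound
    have step1 : ∀ h ∈ Om D, ind (NoB x r N h) ≤ ind (Mt D x (N + 1) h) +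
        ind (Sq x (N + 1) ⊆ (Ex D h x : Set V)) * ind (NoB x r N h) := by
      intro h _
      by_cases hm : Mt D x (N + 1) h
      · rw [ind_true hm]
        have h3 := ind_le_one (NoB x r N h)
        have h4 := mul_nonneg (ind_nonneg (Sq x (N + 1) ⊆ (Ex D h x : Set V)))
          (ind_nonneg (NoB x r N h))
        linarith
      · have h3 : Sq x (N + 1) ⊆ (Ex D h x : Set V) := by
          refine sq_sub_Ex (by omega) hn fun u hu hu' => hm ⟨u, hu, hu'⟩
        rw [ind_false hm, ind_true h3]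
        linarith
    have step2 : ∀ E ∈ D.powerset.filter (fun E : Finset V => Sq x (N + 1) ⊆ (E : Set V)),
        ∑ h ∈ OmE D x E, ind (NoB x r N h) ≤
          ∑ h ∈ OmE D x E, (β + (1 - c) ^ s * ind (¬ Mt D x N1 h)) := by
      intro E hE
      rw [mem_filter, mem_powerset] at hE
      rcases (OmE D x E).eq_empty_or_nonempty with f0 | ⟨f0, hf0⟩
      · rw [f0]
        simp
      have hE' : SC E := by
        obtain ⟨h1, -, h2⟩ := mem_OmE.1 hf0
        rw [← h2]
        exact Ex_SC hD h1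
      have hlt : E ⊂ D := by
        refine ⟨hE.1, fun hDE => ?_⟩
        obtain ⟨h1, h3, h2⟩ := mem_OmE.1 hf0
        obtain ⟨z, hz⟩ := LG.exists_notMem D
        have huniv : Con (Set.univ : Set V) x z := by
          obtain ⟨x1, x2⟩ := x
          obtain ⟨z1, z2⟩ := z
          exact Jn.trans (v := (z1, x2)) (con_row' fun _ _ _ => trivial)
            (con_col' fun _ _ _ => trivial)
        obtain ⟨a, b, -, e2, -, e4, -, e6⟩ := huniv.exit (A := (D : Set V)) (hn hx) hz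
        have h4 : a ∈ Cb D f0 := bdry_sub_Cb h1 (mem_bdry.2 ⟨e4, b, adj_symm e2, e6⟩)
        have h5 : a ∈ Ex D f0 x := by
          rw [h2]
          exact hDE e4
        exact Ex_not_Cb h5 h4
      rw [markov hD x E]
      refine sum_le_sum fun h hh => ?_
      obtain ⟨i1, i3, i2⟩ := mem_OmE.1 hh
      have e1 : avg (Om E) (fun g => ind (NoB x r N (gl E (sg E h) h g))) ≤
          avg (Om E) (fun g => ind (NoB x r N g)) := by
        refine avg_mono fun g hg => ind_le_ind fun hW => ?_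
        have H := stp1 (x := x) hD i1 (g := g) (by rw [i2]; exact hg)
        rw [i2] at H
        intro k hk hb
        refine hW (sg E h * (k + 2)) ((hk.add even_two).mul_left _)
          (blk_up H ((Sq_mono hrN).trans hE.2) hb)
      refine e1.trans ?_
      by_cases hE1 : Sq x N1 ⊆ (E : Set V)
      · have h4 : ¬ Mt D x N1 h := by
          rintro ⟨u, hu, hu'⟩
          have h5 : u ∈ Ex D h x := by
            rw [i2]
            exact hE1 hu
          exact Ex_not_Cb h5 hu'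
        rw [ind_true h4, mul_one]
        exact ih E hlt hE' hE.2
      · have h4 := hβ E hE' hE.2 hE1
        have h5 := mul_nonneg hcs (ind_nonneg (¬ Mt D x N1 h))
        linarith
    have step3 : avg (Om D) (fun h => ind (Sq x (N + 1) ⊆ (Ex D h x : Set V)) *
        ind (NoB x r N h)) ≤ avg (Om D) (fun h => β + (1 - c) ^ s * ind (¬ Mt D x N1 h)) := by
      unfold avg
      refine div_le_div_of_nonneg_right ?_ hN.le
      rw [sum_fib D hx]
      refine (sum_le_sum step2).trans ?_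
      rw [← sum_fib D hx]
      refine sum_le_sum fun h _ => ?_
      have h4 := ind_le_one (Sq x (N + 1) ⊆ (Ex D h x : Set V))
      have h5 := mul_nonneg hcs (ind_nonneg (¬ Mt D x N1 h))
      have h6 := ind_nonneg (Sq x (N + 1) ⊆ (Ex D h x : Set V))
      nlinarith
    have step4 : avg (Om D) (fun h => β + (1 - c) ^ s * ind (¬ Mt D x N1 h)) =
        β + (1 - c) ^ s * (1 - pr (Om D) (Mt D x N1)) := by
      rw [← pr_not (Om_nonempty hD.par), pr_eq_ind]
      unfold avg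
      rw [sum_add_distrib, ← mul_sum, sum_const, nsmul_eq_mul]
      field_simp
    have step5 := pr_Mt hLP hc hD.par s h0 h1 h2 hN1
    have step6 := avg_mono step1
    have h7 := pr_eq_ind (Om D) (Mt D x (N + 1))
    rw [avg_add', ← h7] at step6
    rw [step4] at step3
    linarith
  · have := hβ D hD hn hN1
    linarith

end FC
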