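import Pool.Agent.Helper36.DV.Fd

/-!
# Project DV (MP_973bc8_pr), block FLATC: flat circuits in every large domain
-/

open Finset RP4 DV LG Filter

namespace FC

variable {c : ℝ} {K n0 : ℤ}

/-- logarithmic bound for the covariance -/
def Lgs (C : ℝ) : Prop :=
  ∀ n : ℤ, 1 ≤ n → ∀ j : ℕ, ∀ x y : V, y ∈ Sq x n → y ∉ Sq x (n - 1) → ∀ D : Finset V, SC D →
    x ∈ D → y ∈ D → (∃ v ∈ Sq x (n * 2 ^ j), v ∉ D) →
    avg (Om D) (fun h => (h x : ℝ) * h y) ≤ C * (1 + j)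

lemma LP.mono {c c' : ℝ} (h : LP c K n0) (hc : c' ≤ c) : LP c' K n0 :=
  fun n hn x D p Z h1 h2 h3 h4 => hc.trans (h n hn x D p Z h1 h2 h3 h4)

lemma tends_beta (C : ℝ) (A B : ℕ) {q : ℝ} (hq : 0 ≤ q) (hq1 : q < 1) :
    Tendsto (fun a : ℕ => C * (1 + ((A + B * a : ℕ) : ℝ)) / (a : ℝ) ^ 2 + (2 * a + 1) * q ^ a)
      atTop (nhds 0) := by
  have h1 : Tendsto (fun a : ℕ => (1 : ℝ) / a) atTop (nhds 0) := tendsto_one_div_atTop_nhds_zero_nat
  have h2 : Tendsto (fun a : ℕ => C * (1 + A) * ((1 : ℝ) / a * (1 / a)) + C * B * (1 / a)) atTop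
      (nhds (C * (1 + A) * (0 * 0) + C * B * 0)) :=
    ((h1.mul h1).const_mul _).add (h1.const_mul _)
  have h3 : Tendsto (fun a : ℕ => C * (1 + ((A + B * a : ℕ) : ℝ)) / (a : ℝ) ^ 2) atTop
      (nhds 0) := by
    refine Tendsto.congr' ?_ (by simpa using h2)
    filter_upwards [eventually_gt_atTop 0] with a ha
    have : (a : ℝ) ≠ 0 := by exact_mod_cast ha.ne'
    push_cast
    field_simp
    ring
  have h4 : Tendsto (fun a : ℕ => (a : ℝ) * q ^ a) atTop (nhds 0) :=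
    tendsto_self_mul_const_pow_of_lt_one hq hq1
  have h5 : Tendsto (fun a : ℕ => q ^ a) atTop (nhds 0) := tendsto_pow_atTop_nhds_zero_of_lt_one hq hq1
  have h6 : Tendsto (fun a : ℕ => (2 * (a : ℝ) + 1) * q ^ a) atTop (nhds 0) := by
    have h7 := (h4.const_mul 2).add h5
    simp only [mul_zero, add_zero] at h7
    refine h7.congr fun a => ?_
    ring
  simpa using h3.add h6

/-- FLATC, from LOOP and the logarithmic bound -/
theorem flatc_of (hLP : LP c K n0) (hc : 0 < c) {C : ℝ} (hC0 : 0 ≤ C) (hC : Lgs C) {ε : ℝ}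
    (hε : 0 < ε) : ∃ L : ℤ, 1 ≤ L ∧ ∀ n : ℤ, 1 ≤ n → ∀ (x : V) (D : Finset V), SC D →
      Sq x (L * n) ⊆ (D : Set V) → pr (Om D) (NoB x n (L * n)) ≤ ε := by
  obtain ⟨d, hd⟩ : ∃ d : ℝ, d = min c 1 := ⟨_, rfl⟩
  have hd0 : 0 < d := by rw [hd]; exact lt_min hc one_pos
  have hd1 : d ≤ 1 := by rw [hd]; exact min_le_right _ _
  have hLPd : LP d K n0 := LP.mono hLP (by rw [hd]; exact min_le_left _ _)
  obtain ⟨s, hs⟩ := exists_pow_lt_of_lt_one (half_pos hε) (show 1 - d < 1 by linarith)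
  obtain ⟨B, hB⟩ : ∃ B : ℕ, 2 * |K| + |n0| + 6 < 2 ^ B := by
    obtain ⟨B, hB⟩ := pow_unbounded_of_one_lt (2 * |K| + |n0| + 6) (show (1 : ℤ) < 2 by norm_num)
    exact ⟨B, hB⟩
  have hn0 := abs_nonneg n0
  have hn0' := le_abs_self n0
  have hK := abs_nonneg K
  have ht := tends_beta C (B * s + B + 2) B (show (0 : ℝ) ≤ 1 - d / 2 by linarith)
    (show 1 - d / 2 < 1 by linarith)
  obtain ⟨a, ha, ha0⟩ := ((ht.eventually (gt_mem_nhds (half_pos hε))).and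
    (eventually_gt_atTop 0)).exists
  obtain ⟨J, hJ⟩ : ∃ J : ℕ, J = B * s + B + 2 + B * a := ⟨_, rfl⟩
  refine ⟨2 ^ J, one_le_pow₀ (by norm_num), fun n hn x D hD hDn => ?_⟩
  obtain ⟨N, hN⟩ : ∃ N : ℤ, N = (|n0| + 5) * (2 * |K| + 6) ^ a * n := ⟨_, rfl⟩
  obtain ⟨N1, hN1⟩ : ∃ N1 : ℤ, N1 = (|K| + 2) ^ s * (N + 1) + 1 := ⟨_, rfl⟩
  have e1 : (1 : ℤ) ≤ (2 * |K| + 6) ^ a := one_le_pow₀ (by omega)
  have e2 : (1 : ℤ) ≤ (|K| + 2) ^ s := one_le_pow₀ (by omega)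
  have hNn : |n0| + 5 ≤ N := by
    rw [hN]
    have h1 : |n0| + 5 ≤ (|n0| + 5) * (2 * |K| + 6) ^ a := by nlinarith
    nlinarith
  have hnN : n ≤ N := by
    rw [hN]
    have h1 : 1 ≤ (|n0| + 5) * (2 * |K| + 6) ^ a := by nlinarith
    nlinarith
  have hNN1 : N + 1 ≤ N1 := by
    rw [hN1]
    nlinarith
  have hN1L : N1 ≤ 2 ^ J * n := by
    have i1 : (2 * |K| + 6) ^ a ≤ ((2 : ℤ) ^ B) ^ a := pow_le_pow_left₀ (by omega) (by omega) a
    have i2 : (|K| + 2) ^ s ≤ ((2 : ℤ) ^ B) ^ s := pow_le_pow_left₀ (by omega) (by omega) s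
    have i3 : N ≤ 2 ^ B * (2 ^ B) ^ a * n := by
      rw [hN]
      refine mul_le_mul_of_nonneg_right ?_ (by omega)
      exact mul_le_mul (by omega) i1 (by omega) (by positivity)
    have i4 : N + 1 ≤ 2 * (2 ^ B * (2 ^ B) ^ a * n) := by omega
    have i5 : (|K| + 2) ^ s * (N + 1) ≤ (2 ^ B) ^ s * (2 * (2 ^ B * (2 ^ B) ^ a * n)) :=
      mul_le_mul i2 i4 (by omega) (by positivity)
    have i6 : (1 : ℤ) ≤ (|K| + 2) ^ s * (N + 1) := by nlinarith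
    have i7 : N1 ≤ 2 * ((2 ^ B) ^ s * (2 * (2 ^ B * (2 ^ B) ^ a * n))) := by omega
    refine i7.trans (le_of_eq ?_)
    rw [hJ, pow_add, pow_add, pow_add, pow_mul, pow_mul]
    ring
  have hx : x ∈ Sq x n := ⟨by simp; omega, by simp; omega⟩
  obtain ⟨z, hz⟩ : ∃ z : V, z = (x.1 + n, x.2) := ⟨_, rfl⟩
  have hz1 : z ∈ Sq x n := by
    rw [hz]
    refine ⟨?_, ?_⟩
    · simp only [add_sub_cancel_left]
      rw [abs_of_nonneg (by omega)]
    · simp only [sub_self, abs_zero]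
      omega
  have hz2 : z ∉ Sq x (n - 1) := by
    rw [hz, not_mem_Sq]
    left
    simp only
    omega
  have hβ : ∀ E : Finset V, SC E → Sq x (N + 1) ⊆ (E : Set V) → ¬ Sq x N1 ⊆ (E : Set V) →
      avg (Om E) (fun h => ind (NoB x n N h)) ≤
        C * (1 + J) / (a : ℝ) ^ 2 + (2 * a + 1) * (1 - d / 2) ^ a := by
    intro E hE hE1 hE2
    have h1 := fivec (x := x) (c := d) hLPd hd0.le hd1 hE a (r := n) (M := N) hn hN.ge hE1 ha0 hx hz1
    have h2 : Sq x n ⊆ (E : Set V) := (Sq_mono (by omega)).trans hE1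
    have h3 : avg (Om E) (fun h => (h x : ℝ) * h z) ≤ C * (1 + J) := by
      refine hC n hn J x z hz1 hz2 E hE (h2 hx) (h2 hz1) ?_
      rw [Set.not_subset] at hE2
      obtain ⟨v, hv, hv'⟩ := hE2
      exact ⟨v, Sq_mono (by rw [mul_comm]; exact hN1L) hv, hv'⟩
    have h4 : avg (Om E) (fun h => (h x : ℝ) * h z) / (a : ℝ) ^ 2 ≤ C * (1 + J) / (a : ℝ) ^ 2 :=
      div_le_div_of_nonneg_right h3 (by positivity)
    linarith
  have hβ0 : 0 ≤ C * (1 + J) / (a : ℝ) ^ 2 + (2 * a + 1) * (1 - d / 2) ^ a := by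
    have h1 : (0 : ℝ) ≤ (1 - d / 2) ^ a := pow_nonneg (by linarith) a
    positivity
  have h1 := fived (x := x) hLPd hd1 s (r := n) (N := N) (N1 := N1) (by omega) (by omega) (by omega)
    (by omega) hβ0 hβ D hD ((Sq_mono (by omega)).trans hDn)
  rw [← pr_eq_ind] at h1
  have h2 : pr (Om D) (NoB x n (2 ^ J * n)) ≤ pr (Om D) (NoB x n N) :=
    pr_mono fun h _ hh => NoB_mono (by omega) hh
  have h3 : C * (1 + J) / (a : ℝ) ^ 2 + (2 * a + 1) * (1 - d / 2) ^ a < ε / 2 := by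
    rw [hJ]
    exact ha
  linarith

end FC
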