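import Pool.Agent.Helper36.DV.Fe
import Pool.Agent.Helper94.BR.Bl

/-!
# Project DV (MP_973bc8_pr), block FLATC: the input `FlatC` of the barrier block
-/

open Finset RP4 DV LG Filter Topology

namespace FC

variable {c : ℝ} {K n0 : ℤ}

lemma diam_con (m : ℕ) : Cnn (diam m : Set V)ᶜ := by
  have hsub : (Sq 0 m)ᶜ ⊆ (diam m : Set V)ᶜ := by
    intro v hv hv'
    apply hv
    rw [mem_coe, mem_diam] at hv'
    have h1 := abs_nonneg v.1
    have h2 := abs_nonneg v.2
    exact ⟨by simpa using (by omega : |v.1| ≤ m), by simpa using (by omega : |v.2| ≤ m)⟩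
  have key : ∀ v ∈ (diam m : Set V)ᶜ, ∃ w ∈ (Sq 0 (m : ℤ))ᶜ, Con (diam m : Set V)ᶜ v w := by
    rintro ⟨a, b⟩ hv
    have hv' : ¬ |a| + |b| ≤ m := fun h => hv (by rw [mem_coe, mem_diam]; exact h)
    rcases le_total 0 a with ha | ha
    · refine ⟨(a + m + 1, b), ?_, con_row (by omega) fun t h1 h2 => ?_⟩
      · show _ ∉ _
        rw [not_mem_Sq]
        left
        show (0 : ℤ) + m < a + m + 1
        omega
      · intro h3
        rw [mem_coe, mem_diam] at h3
        apply hv'
        have h4 : |t| + |b| ≤ m := h3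
        rw [abs_of_nonneg ha]
        rw [abs_of_nonneg (by omega)] at h4
        omega
    · refine ⟨(a - m - 1, b), ?_, Con.symm' (con_row (by omega) fun t h1 h2 => ?_)⟩
      · show _ ∉ _
        rw [not_mem_Sq]
        right
        left
        show a - m - 1 < (0 : ℤ) - m
        omega
      · intro h3
        rw [mem_coe, mem_diam] at h3
        apply hv'
        have h4 : |t| + |b| ≤ m := h3
        rw [abs_of_nonpos ha]
        rw [abs_of_nonpos (by omega)] at h4
        omega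
  intro u hu v hv
  obtain ⟨u', hu', h1⟩ := key u hu
  obtain ⟨v', hv', h2⟩ := key v hv
  exact (h1.trans ((Sq_compl_cnn 0 m u' hu' v' hv').mono (fun _ _ h => h) hsub)).trans
    (Con.symm' h2)

lemma diam_SC (m : ℕ) : SC (diam (2 * m)) := ⟨diam_bdryPar _ (even_two_mul m), diam_con _⟩

/-- the input `FlatC` of the barrier block -/
theorem flatC (hd : Deloc) (hLP : LP c K n0) (hc : 0 < c) {C : ℝ} (hC0 : 0 ≤ C) (hC : Lgs C) :
    DV.FlatC := by
  classical
  intro ε hε W hW
  obtain ⟨L, hL1, hL⟩ := flatc_of hLP hc hC0 hC hε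
  have hL1' : (1 : ℝ) ≤ L := by exact_mod_cast hL1
  obtain ⟨W', hW'⟩ : ∃ W' : ℝ, W' = 3 * L * W + W + 1 := ⟨_, rfl⟩
  have hWW : W < W' := by
    rw [hW']
    have : 0 < 3 * L * W := by positivity
    linarith
  refine ⟨W', hWW, ?_⟩
  have hev : ∀ᶠ δ in 𝓝[>] (0 : ℝ), δ < min W 1 :=
    nhdsWithin_le_nhds (gt_mem_nhds (lt_min hW one_pos))
  filter_upwards [self_mem_nhdsWithin, hev] with δ hδ hδ'
  have hδ0 : 0 < δ := hδ
  have hδW : δ < W := hδ'.trans_le (min_le_left _ _)
  have hδ1 : δ < 1 := hδ'.trans_le (min_le_right _ _)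
  obtain ⟨n, hn⟩ : ∃ n : ℤ, n = ⌈W / δ⌉ + 1 := ⟨_, rfl⟩
  have hn1 : W / δ + 1 ≤ n := by
    rw [hn]
    push_cast
    have := Int.le_ceil (W / δ)
    linarith
  have hn2 : (n : ℝ) ≤ W / δ + 2 := by
    rw [hn]
    push_cast
    have := Int.ceil_lt_add_one (W / δ)
    linarith
  have hWδ : 0 < W / δ := by positivity
  have hn3 : (1 : ℤ) ≤ n := by
    have : (1 : ℝ) ≤ n := by linarith
    exact_mod_cast this
  have hin : ∀ v ∈ nb (Inn δ 0 W), v ∈ Sq 0 n := by
    intro v hv
    have h1 := nb_Inn hδ0 hv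
    rw [Prod.dist_eq, max_le_iff, Real.dist_eq, Real.dist_eq] at h1
    unfold pt at h1
    simp only [Prod.fst_zero, Prod.snd_zero, sub_zero, abs_mul, abs_of_pos hδ0] at h1
    have key : ∀ a : ℤ, δ * |(a : ℝ)| ≤ W + δ → |a - 0| ≤ n := by
      intro a ha
      rw [sub_zero]
      have h2 : |(a : ℝ)| ≤ W / δ + 1 := by
        rw [← mul_le_mul_iff_right₀ hδ0]
        refine ha.trans (le_of_eq ?_)
        field_simp
      have h3 : (|a| : ℝ) ≤ n := h2.trans hn1
      exact_mod_cast h3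
    exact ⟨key _ h1.1, key _ h1.2⟩
  have hout : ∀ v ∈ nb (Out δ 0 W'), v ∉ Sq 0 (L * n) := by
    intro v hv hv'
    have h1 := nb_Out hδ0 hv
    rw [Prod.dist_eq, Real.dist_eq, Real.dist_eq] at h1
    unfold pt at h1
    simp only [Prod.fst_zero, Prod.snd_zero, sub_zero, abs_mul, abs_of_pos hδ0] at h1
    have key : ∀ a : ℤ, |a - 0| ≤ L * n → δ * |(a : ℝ)| ≤ 3 * L * W := by
      intro a ha
      rw [sub_zero] at ha
      have h2 : |(a : ℝ)| ≤ L * n := by exact_mod_cast ha
      have h3 : (L : ℝ) * n ≤ L * (W / δ + 2) := mul_le_mul_of_nonneg_left hn2 (by linarith)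
      have h4 : δ * |(a : ℝ)| ≤ δ * (L * (W / δ + 2)) :=
        mul_le_mul_of_nonneg_left (h2.trans h3) hδ0.le
      refine h4.trans ?_
      have h5 : δ * (L * (W / δ + 2)) = L * W + 2 * L * δ := by
        field_simp
      rw [h5]
      have h6 : (L : ℝ) * δ ≤ L * W := mul_le_mul_of_nonneg_left hδW.le (by linarith)
      linarith
    have h2 := max_le (key _ hv'.1) (key _ hv'.2)
    linarith
  obtain ⟨E, hE⟩ : ∃ E : (V → ℤ) → Prop, E = fun h => ∃ k, Bk k δ 0 W W' h := ⟨_, rfl⟩
  -- the event in a finite domain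
  have hfin : ∀ D : Finset V, SC D → Sq 0 (L * n) ⊆ (D : Set V) → 1 - ε ≤ pr (Om D) E := by
    intro D hD hDn
    have h1 := hL n hn3 0 D hD hDn
    have h2 := pr_not (Om_nonempty hD.par) (NoB 0 n (L * n))
    have h3 : pr (Om D) (fun g => ¬ NoB 0 n (L * n) g) ≤ pr (Om D) E := by
      refine pr_mono fun g _ hg => ?_
      unfold NoB at hg
      push Not at hg
      obtain ⟨k0, ⟨k, rfl⟩, hk⟩ := hg
      rw [hE]
      refine ⟨k, fun u hu v hv huv => hk ⟨u, hin u hu, v, hout v hv, huv.mono (fun _ _ h => h) ?_⟩⟩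
      intro w hw
      have hw' : g w - 2 * k ≠ 0 := hw
      show g w ≠ k + k
      omega
    linarith
  -- the limit
  obtain ⟨F, hF⟩ : ∃ F : (V → ℤ) → ℂ, F = fun g => (ic E g : ℂ) := ⟨_, rfl⟩
  have hWd : W + δ < W' := by
    rw [hW']
    have : 0 < 3 * L * W := by positivity
    linarith
  have hAL : AL (Is δ 0 W') F := by
    intro h h' hh
    have h1 : ∀ k, Bk k δ 0 W W' h ↔ Bk k δ 0 W W' h' := fun k =>
      bk_loc hδ0 hWd fun v hv => hh v ((mem_Is hδ0).2 hv.le)
    have h2 : E h ↔ E h' := by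
      rw [hE]
      exact exists_congr h1
    rw [hF]
    simp only [ic, h2]
  have hPh : Phs 0 F := by
    intro k h
    have h2 : E (lev k h) ↔ E h := by
      rw [hE]
      constructor
      · rintro ⟨j, hj⟩
        refine ⟨j + k, ?_⟩
        unfold Bk at hj ⊢
        have e : lev j (lev k h) = lev (j + k) h := by
          funext v
          unfold lev
          ring
        rwa [← e]
      · rintro ⟨j, hj⟩
        refine ⟨j - k, ?_⟩
        unfold Bk at hj ⊢
        have e : lev (j - k) (lev k h) = lev j h := by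
          funext v
          unfold lev
          ring
        rwa [e]
    rw [hF]
    simp only [ic, h2]
    simp
  have ht := ((Complex.continuous_re.tendsto _).comp (muP_tendsto hd hAL hPh)).comp diam_tendsto
  rw [← hE, ← hF]
  refine ge_of_tendsto ht ?_
  have h0 : Tendsto (fun m : ℕ => diam (2 * m)) atTop atTop := diam_tendsto.mono_right inf_le_left
  have hfinite : (Sq (0 : V) (L * n)).Finite := by
    refine ((Set.finite_Icc (-(L * n)) (L * n)).prod (Set.finite_Icc (-(L * n)) (L * n))).subset ?_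
    rintro v ⟨h1, h2⟩
    simp only [Prod.fst_zero, Prod.snd_zero, sub_zero] at h1 h2
    exact ⟨abs_le.1 h1, abs_le.1 h2⟩
  filter_upwards [h0.eventually (eventually_ge_atTop hfinite.toFinset)] with m hm
  have h1 := hfin (diam (2 * m)) (diam_SC m) fun v hv => hm (hfinite.mem_toFinset.2 hv)
  have h2 : ((avc (Om (diam (2 * m))) F).re) = pr (Om (diam (2 * m))) E := by
    have h3 : avc (Om (diam (2 * m))) F = ((pr (Om (diam (2 * m))) E : ℝ) : ℂ) := by
      rw [hF]
      unfold avc pr avg ic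
      push_cast
      congr!
    rw [h3, Complex.ofReal_re]
  show 1 - ε ≤ (avc (Om (diam (2 * m))) F).re
  rw [h2]
  exact h1

end FC
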