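import Pool.Agent.Helper36.DV.Fg
import Pool.Agent.Helper74.AL.Out

/-!
# Project DV (MP_973bc8_pr), block FLATC: unconditional form
-/

open RP4

namespace FC

/-- flat circuits in every large domain -/
theorem flatc_all {ε : ℝ} (hε : 0 < ε) :
    ∃ L : ℤ, 1 ≤ L ∧ ∀ n : ℤ, 1 ≤ n → ∀ (x : V) (D : Finset V), LG.SC D →
      DV.Sq x (L * n) ⊆ (D : Set V) → DV.pr (Om D) (NoB x n (L * n)) ≤ ε := by
  obtain ⟨c, K, n0, hc, -, -, hLP⟩ := AL.exists_LP
  exact flatc hLP hc hε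

/-- the input `FlatC` of the barrier block -/
theorem flatC_all (hd : Deloc) : DV.FlatC := by
  obtain ⟨c, K, n0, hc, -, -, hLP⟩ := AL.exists_LP
  exact flatC_of_LP hd hLP hc

end FC
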